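import Mathlib

/-!
Binary encodings used in statements about polynomial-time computability.
-/

set_option autoImplicit false

namespace Pool.Agent.Shared.PolyTime

/-- A natural number in unary. -/
def encNat (n : ℕ) : List Bool := List.replicate n true

/-- A pair of bit strings: the length of the first in unary, a zero, then both strings. -/
def encPair (x y : List Bool) : List Bool := List.replicate x.length true ++ false :: (x ++ y)

/-- A list, as nested pairs of the encoded entries. -/
def encList {α : Type} (e : α → List Bool) : List α → List Bool
  | [] => []
  | a :: l => encPair (e a) (encList e l)

end Pool.Agent.Shared.PolyTime
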