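import Mathlib

/-!
A small imperative language on stacks of bits, with a cost semantics, and its compilation to
Mathlib's TM2 machines.
-/

set_option autoImplicit false

namespace Pool.Agent.Shared.PolyTime

open Function Turing

/-- Programs acting on countably many stacks of bits. -/
inductive Cmd : Type
  | skip : Cmd
  | push : ℕ → Bool → Cmd
  | pop : ℕ → Cmd
  | seq : Cmd → Cmd → Cmd
  | test : ℕ → Cmd → Cmd → Cmd → Cmd
  | loop : ℕ → Cmd → Cmd

/-- States. -/
abbrev St : Type := ℕ → List Bool

/-- Big-step semantics with an upper bound for the cost. -/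
inductive Exec : Cmd → St → St → ℕ → Prop
  | skip (s : St) : Exec .skip s s 0
  | push (k : ℕ) (b : Bool) (s : St) : Exec (.push k b) s (update s k (b :: s k)) 1
  | pop (k : ℕ) (s : St) : Exec (.pop k) s (update s k (s k).tail) 1
  | seq {c d : Cmd} {s s' s'' : St} {m n : ℕ} :
      Exec c s s' m → Exec d s' s'' n → Exec (.seq c d) s s'' (m + n)
  | testE {k : ℕ} {e f t : Cmd} {s s' : St} {n : ℕ} :
      s k = [] → Exec e s s' n → Exec (.test k e f t) s s' (n + 1)
  | testF {k : ℕ} {e f t : Cmd} {s s' : St} {n : ℕ} {l : List Bool} :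
      s k = false :: l → Exec f s s' n → Exec (.test k e f t) s s' (n + 1)
  | testT {k : ℕ} {e f t : Cmd} {s s' : St} {n : ℕ} {l : List Bool} :
      s k = true :: l → Exec t s s' n → Exec (.test k e f t) s s' (n + 1)
  | loopE {k : ℕ} {c : Cmd} {s : St} : s k = [] → Exec (.loop k c) s s 1
  | loopS {k : ℕ} {c : Cmd} {s s' s'' : St} {m n : ℕ} :
      s k ≠ [] → Exec c s s' m → Exec (.loop k c) s' s'' n → Exec (.loop k c) s s'' (m + n + 1)
  | mono {c : Cmd} {s s' : St} {m n : ℕ} : Exec c s s' m → m ≤ n → Exec c s s' n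

theorem Exec.of_eq {c : Cmd} {s s' s'' : St} {m n : ℕ} (h : Exec c s s' m) (e : s' = s'')
    (hmn : m ≤ n) : Exec c s s'' n := e ▸ h.mono hmn

/-- A run of cost `n` lengthens each stack by at most `n`. -/
theorem Exec.length_le {c : Cmd} {s s' : St} {n : ℕ} (h : Exec c s s' n) (k : ℕ) :
    (s' k).length ≤ (s k).length + n := by
  induction h with
  | skip s => simp
  | push j b s =>
    by_cases hk : k = j
    · subst hk; simp
    · simp [update_of_ne hk]
  | pop j s =>
    by_cases hk : k = j
    · subst hk; simp; omega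
    · simp [update_of_ne hk]
  | seq _ _ ih1 ih2 => omega
  | testE _ _ ih => omega
  | testF _ _ ih => omega
  | testT _ _ ih => omega
  | loopE _ => omega
  | loopS _ _ _ ih1 ih2 => omega
  | mono _ _ ih => omega

/-- All stacks used are numbered at most `N`. -/
def Cmd.Bdd (N : ℕ) : Cmd → Prop
  | .skip => True
  | .push k _ => k ≤ N
  | .pop k => k ≤ N
  | .seq c d => c.Bdd N ∧ d.Bdd N
  | .test k e f t => k ≤ N ∧ e.Bdd N ∧ f.Bdd N ∧ t.Bdd N
  | .loop k c => k ≤ N ∧ c.Bdd N

/-- The largest stack number used. -/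
def Cmd.top : Cmd → ℕ
  | .skip => 0
  | .push k _ => k
  | .pop k => k
  | .seq c d => max c.top d.top
  | .test k e f t => max k (max e.top (max f.top t.top))
  | .loop k c => max k c.top

theorem Cmd.bdd_of_top_le {N : ℕ} : ∀ {c : Cmd}, c.top ≤ N → c.Bdd N
  | .skip, _ => trivial
  | .push _ _, h => h
  | .pop _, h => h
  | .seq _ _, h => by
    simp only [Cmd.top, max_le_iff] at h
    exact ⟨bdd_of_top_le h.1, bdd_of_top_le h.2⟩
  | .test _ _ _ _, h => by
    simp only [Cmd.top, max_le_iff] at h
    exact ⟨h.1, bdd_of_top_le h.2.1, bdd_of_top_le h.2.2.1, bdd_of_top_le h.2.2.2⟩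
  | .loop _ _, h => by
    simp only [Cmd.top, max_le_iff] at h
    exact ⟨h.1, bdd_of_top_le h.2⟩

/-- Loop positions of a program. -/
def Cmd.Pos : Cmd → Type
  | .skip => Empty
  | .push _ _ => Empty
  | .pop _ => Empty
  | .seq c d => c.Pos ⊕ d.Pos
  | .test _ e f t => e.Pos ⊕ f.Pos ⊕ t.Pos
  | .loop _ c => Option c.Pos

/-- There are finitely many positions. -/
@[instance_reducible]
def Cmd.finPos : ∀ c : Cmd, Fintype c.Pos
  | .skip => inferInstanceAs (Fintype Empty)
  | .push _ _ => inferInstanceAs (Fintype Empty)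
  | .pop _ => inferInstanceAs (Fintype Empty)
  | .seq c d =>
    letI := c.finPos
    letI := d.finPos
    inferInstanceAs (Fintype (c.Pos ⊕ d.Pos))
  | .test _ e f t =>
    letI := e.finPos
    letI := f.finPos
    letI := t.finPos
    inferInstanceAs (Fintype (e.Pos ⊕ f.Pos ⊕ t.Pos))
  | .loop _ c =>
    letI := c.finPos
    inferInstanceAs (Fintype (Option c.Pos))

/-- Stack numbers cut down to `Fin (N+1)`. -/
def reg (N k : ℕ) : Fin (N + 1) := ⟨min k N, by omega⟩

/-- TM2 statements on `N+1` stacks of bits. -/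
abbrev TS (N : ℕ) (L : Type) : Type :=
  TM2.Stmt (fun _ : Fin (N + 1) => Bool) L (Option Bool)

/-- TM2 configurations on `N+1` stacks of bits. -/
abbrev TC (N : ℕ) (L : Type) : Type :=
  TM2.Cfg (fun _ : Fin (N + 1) => Bool) L (Option Bool)

/-- Code at the entry of a program, with continuation `q`. -/
def ent (N : ℕ) {L : Type} : ∀ (c : Cmd), (c.Pos → L) → TS N L → TS N L
  | .skip, _, q => q
  | .push k b, _, q => .push (reg N k) (fun _ => b) q
  | .pop k, _, q => .pop (reg N k) (fun v _ => v) q
  | .seq c d, emb, q => ent N c (fun p => emb (.inl p)) (ent N d (fun p => emb (.inr p)) q)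
  | .test k e f t, emb, q => .peek (reg N k) (fun _ o => o)
      (.branch (fun o => o.isNone) (ent N e (fun p => emb (.inl p)) q)
        (.branch (fun o => o.getD false) (ent N t (fun p => emb (.inr (.inr p))) q)
          (ent N f (fun p => emb (.inr (.inl p))) q)))
  | .loop _ _, emb, _ => .goto (fun _ => emb none)

/-- Code at each loop position. -/
def lab (N : ℕ) {L : Type} : ∀ (c : Cmd), (c.Pos → L) → TS N L → c.Pos → TS N L
  | .skip, _, _, p => p.elim
  | .push _ _, _, _, p => p.elim
  | .pop _, _, _, p => p.elim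
  | .seq c d, emb, q, .inl p =>
      lab N c (fun p => emb (.inl p)) (ent N d (fun p => emb (.inr p)) q) p
  | .seq _ d, emb, q, .inr p => lab N d (fun p => emb (.inr p)) q p
  | .test _ e _ _, emb, q, .inl p => lab N e (fun p => emb (.inl p)) q p
  | .test _ _ f _, emb, q, .inr (.inl p) => lab N f (fun p => emb (.inr (.inl p))) q p
  | .test _ _ _ t, emb, q, .inr (.inr p) => lab N t (fun p => emb (.inr (.inr p))) q p
  | .loop k c, emb, q, none => .peek (reg N k) (fun _ o => o)
      (.branch (fun o => o.isNone) q (ent N c (fun p => emb (some p)) (.goto (fun _ => emb none))))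
  | .loop _ c, emb, _, some p => lab N c (fun p => emb (some p)) (.goto (fun _ => emb none)) p

/-- Restriction of a state to the first `N+1` stacks. -/
def tr (N : ℕ) (s : St) : Fin (N + 1) → List Bool := fun i => s i

theorem tr_reg {N k : ℕ} (h : k ≤ N) (s : St) : tr N s (reg N k) = s k := by
  simp [tr, reg, min_eq_left h]

theorem tr_update {N k : ℕ} (h : k ≤ N) (s : St) (l : List Bool) :
    tr N (update s k l) = update (tr N s) (reg N k) l := by
  funext i
  by_cases hi : i = reg N k
  · subst hi
    simp [tr, reg, min_eq_left h]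
  · rw [update_of_ne hi]
    have : (i : ℕ) ≠ k := by
      intro e
      apply hi
      ext
      simp [reg, min_eq_left h, e]
    simp [tr, update_of_ne this]

/-- `m` steps of the machine `M`. -/
def Steps {N : ℕ} {L : Type} (M : L → TS N L) (m : ℕ) (a b : TC N L) : Prop :=
  (flip bind (TM2.step M))^[m] (some a) = some b

theorem Steps.refl {N : ℕ} {L : Type} (M : L → TS N L) (a : TC N L) : Steps M 0 a a := rfl

theorem Steps.trans {N : ℕ} {L : Type} {M : L → TS N L} {m n : ℕ} {a b c : TC N L}
    (h1 : Steps M m a b) (h2 : Steps M n b c) : Steps M (n + m) a c := by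
  unfold Steps at *
  rw [iterate_add_apply, h1, h2]

theorem Steps.one {N : ℕ} {L : Type} (M : L → TS N L) (l : L) (v : Option Bool)
    (S : Fin (N + 1) → List Bool) : Steps M 1 ⟨some l, v, S⟩ (TM2.stepAux (M l) v S) := rfl

theorem simulate {N : ℕ} {L : Type} (M : L → TS N L) {c : Cmd} {s s' : St} {n : ℕ}
    (h : Exec c s s' n) : c.Bdd N → ∀ (emb : c.Pos → L) (q : TS N L),
      (∀ p, M (emb p) = lab N c emb q p) → ∀ v, ∃ v' m, m ≤ n ∧
        Steps M m (TM2.stepAux (ent N c emb q) v (tr N s)) (TM2.stepAux q v' (tr N s')) := by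
  induction h with
  | skip s => exact fun _ _ _ _ v => ⟨v, 0, le_rfl, Steps.refl _ _⟩
  | push k b s =>
    intro hb emb q _ v
    refine ⟨v, 0, Nat.zero_le _, ?_⟩
    simp only [ent, TM2.stepAux]
    rw [tr_update hb, tr_reg hb]
    exact Steps.refl _ _
  | pop k s =>
    intro hb emb q _ v
    refine ⟨v, 0, Nat.zero_le _, ?_⟩
    simp only [ent, TM2.stepAux]
    rw [tr_update hb, tr_reg hb]
    exact Steps.refl _ _
  | seq _ _ ih1 ih2 =>
    intro hb emb q hM v
    obtain ⟨v1, m1, hm1, h1⟩ := ih1 hb.1 (fun p => emb (.inl p)) _ (fun p => hM (.inl p)) v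
    obtain ⟨v2, m2, hm2, h2⟩ := ih2 hb.2 (fun p => emb (.inr p)) q (fun p => hM (.inr p)) v1
    exact ⟨v2, _, by omega, h1.trans h2⟩
  | testE hs _ ih =>
    intro hb emb q hM v
    obtain ⟨v1, m1, hm1, h1⟩ := ih hb.2.1 (fun p => emb (.inl p)) q (fun p => hM (.inl p)) none
    refine ⟨v1, m1, by omega, ?_⟩
    simp only [ent, TM2.stepAux]
    rw [tr_reg hb.1, hs]
    exact h1
  | testF hs _ ih =>
    intro hb emb q hM v
    obtain ⟨v1, m1, hm1, h1⟩ := ih hb.2.2.1 (fun p => emb (.inr (.inl p))) q
      (fun p => hM (.inr (.inl p))) (some false)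
    refine ⟨v1, m1, by omega, ?_⟩
    simp only [ent, TM2.stepAux]
    rw [tr_reg hb.1, hs]
    exact h1
  | testT hs _ ih =>
    intro hb emb q hM v
    obtain ⟨v1, m1, hm1, h1⟩ := ih hb.2.2.2 (fun p => emb (.inr (.inr p))) q
      (fun p => hM (.inr (.inr p))) (some true)
    refine ⟨v1, m1, by omega, ?_⟩
    simp only [ent, TM2.stepAux]
    rw [tr_reg hb.1, hs]
    exact h1
  | @loopE k c s hs =>
    intro hb emb q hM v
    refine ⟨none, 1, le_rfl, ?_⟩
    have h1 := Steps.one M (emb none) v (tr N s)
    rw [hM none] at h1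
    simp only [lab, TM2.stepAux] at h1
    rw [tr_reg hb.1, hs] at h1
    exact h1
  | @loopS k c s s' s'' m n hs _ _ ih1 ih2 =>
    intro hb emb q hM v
    have h1 := Steps.one M (emb none) v (tr N s)
    rw [hM none] at h1
    simp only [lab, TM2.stepAux] at h1
    rw [tr_reg hb.1] at h1
    obtain ⟨b, l, hbl⟩ := List.exists_cons_of_ne_nil hs
    rw [hbl] at h1
    obtain ⟨v1, m1, hm1, h2⟩ := ih1 hb.2 (fun p => emb (some p)) (.goto (fun _ => emb none))
      (fun p => hM (some p)) (some b)
    obtain ⟨v2, m2, hm2, h3⟩ := ih2 hb emb q hM v1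
    exact ⟨v2, _, by omega, (h1.trans h2).trans h3⟩
  | mono _ hmn ih =>
    intro hb emb q hM v
    obtain ⟨v1, m1, hm1, h1⟩ := ih hb emb q hM v
    exact ⟨v1, m1, by omega, h1⟩

/-- The TM2 machine of a program, reading stack 0 and writing stack 1. -/
def machine (N : ℕ) (c : Cmd) : FinTM2 where
  K := Fin (N + 2)
  k₀ := 0
  k₁ := 1
  Γ := fun _ => Bool
  Λ := Option c.Pos
  main := none
  ΛFin := letI := c.finPos; inferInstance
  σ := Option Bool
  initialState := none
  m := fun l => match l with
    | none => ent (N + 1) c some (.load (fun _ => none) .halt)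
    | some p => lab (N + 1) c some (.load (fun _ => none) .halt) p

/-- A program that turns the input on stack 0 into the output on stack 1 in polynomial cost gives
a polynomial-time TM2 machine. -/
theorem tm2_of_exec {α β : Type} (ea : α → List Bool) (eb : β → List Bool) (f : α → β)
    (c : Cmd) (p : Polynomial ℕ)
    (h : ∀ a, Exec c (update (fun _ => []) 0 (ea a)) (update (fun _ => []) 1 (eb (f a)))
      (p.eval (ea a).length)) :
    Nonempty (TM2ComputableInPolyTime ea eb f) := by
  have hb : c.Bdd (c.top + 1) := Cmd.bdd_of_top_le (Nat.le_succ _)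
  have key : ∀ a, ∃ m, m ≤ (p + 1).eval (ea a).length ∧
      (flip bind (machine c.top c).step)^[m] (some (initList (machine c.top c) (ea a))) =
        some (haltList (machine c.top c) (eb (f a))) := by
    intro a
    obtain ⟨v', m, hm, hs⟩ := simulate (N := c.top + 1) (machine c.top c).m (h a) hb some
      (.load (fun _ => none) .halt) (fun _ => rfl) none
    have h1 := Steps.one (N := c.top + 1) (machine c.top c).m none none
      (tr _ (update (fun _ => []) 0 (ea a)))
    have h2 := h1.trans hs
    refine ⟨m + 1, by simpa using hm, ?_⟩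
    have e1 : initList (machine c.top c) (ea a) =
        ⟨some none, none, tr _ (update (fun _ => []) 0 (ea a))⟩ := by
      unfold initList
      congr 1
      funext k
      by_cases hk : k = (machine c.top c).k₀
      · subst hk
        rw [dif_pos rfl]
        rfl
      · rw [dif_neg hk]
        have : (k : Fin (c.top + 2)).val ≠ 0 := fun e => hk (Fin.ext e)
        simp only [tr, update_of_ne this]
        rfl
    have e2 : haltList (machine c.top c) (eb (f a)) =
        ⟨none, none, tr _ (update (fun _ => []) 1 (eb (f a)))⟩ := by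
      unfold haltList
      congr 1
      funext k
      by_cases hk : k = (machine c.top c).k₁
      · subst hk
        rw [dif_pos rfl]
        rfl
      · rw [dif_neg hk]
        have : (k : Fin (c.top + 2)).val ≠ 1 := fun e => hk (Fin.ext e)
        simp only [tr, update_of_ne this]
        rfl
    rw [e1, e2]
    exact h2
  choose m hm hs using key
  refine ⟨{ tm := machine c.top c
            inputAlphabet := Equiv.refl _
            outputAlphabet := Equiv.refl _
            time := p + 1
            outputsFun := fun a => ⟨⟨m a, ?_⟩, hm a⟩ }⟩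
  have e1 : ∀ l : List Bool, List.map (Equiv.refl Bool).invFun l = l := fun l => List.map_id l
  have := hs a
  rw [← e1 (ea a), ← e1 (eb (f a))] at this
  exact this

end Pool.Agent.Shared.PolyTime
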