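import Mathlib
import Pool.Agent.Shared.PolyTime.Machine

/-!
Polynomial-cost functions of several bit strings, closed under composition and bounded folds.
-/

set_option autoImplicit false

namespace Pool.Agent.Shared.PolyTime

open Function Polynomial

theorem eval_mono (p : Polynomial ℕ) {a b : ℕ} (h : a ≤ b) : p.eval a ≤ p.eval b := by
  induction p using Polynomial.induction_on' with
  | add p q hp hq => simp only [eval_add]; omega
  | monomial n c =>
    simp only [eval_monomial]
    exact Nat.mul_le_mul_left _ (Nat.pow_le_pow_left h n)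

/-- Empty stack `k`. -/
def clear (k : ℕ) : Cmd := .loop k (.pop k)

theorem exec_clear (k : ℕ) : ∀ (l : List Bool) (s : St), s k = l →
    Exec (clear k) s (update s k []) (2 * l.length + 1) := by
  intro l
  induction l with
  | nil =>
    intro s hs
    refine (Exec.loopE hs).of_eq ?_ le_rfl
    rw [← hs, update_eq_self]
  | cons b l ih =>
    intro s hs
    have h1 := Exec.pop k s
    have h2 := ih (update s k (s k).tail) (by simp [hs])
    refine (Exec.loopS (by simp [hs]) h1 h2).of_eq (by simp) ?_
    simp only [List.length_cons]; omega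

/-- Move stack `a` onto stack `b`, reversing it. -/
def mv (a b : ℕ) : Cmd :=
  .loop a (.test a .skip (.seq (.push b false) (.pop a)) (.seq (.push b true) (.pop a)))

theorem exec_mv {a b : ℕ} (hab : a ≠ b) : ∀ (l : List Bool) (s : St), s a = l →
    Exec (mv a b) s (update (update s a []) b (l.reverse ++ s b)) (4 * l.length + 1) := by
  intro l
  induction l with
  | nil =>
    intro s hs
    refine (Exec.loopE hs).of_eq ?_ le_rfl
    funext k
    by_cases h1 : k = b
    · subst h1; simp
    · by_cases h2 : k = a
      · subst h2; simp [update_of_ne h1, hs]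
      · simp [update_of_ne h1, update_of_ne h2]
  | cons x l ih =>
    intro s hs
    have h0 : Exec (.seq (.push b x) (.pop a)) s (update (update s b (x :: s b)) a l) 2 := by
      refine ((Exec.push b x s).seq (Exec.pop a _)).of_eq ?_ le_rfl
      simp [update_of_ne hab, hs]
    have h1 : Exec (.test a .skip (.seq (.push b false) (.pop a)) (.seq (.push b true) (.pop a)))
        s (update (update s b (x :: s b)) a l) 3 := by
      cases x
      · exact Exec.testF hs h0
      · exact Exec.testT hs h0
    have h2 := ih (update (update s b (x :: s b)) a l) (by simp)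
    refine (Exec.loopS (by simp [hs]) h1 h2).of_eq ?_ ?_
    · funext k
      by_cases a1 : k = b
      · subst a1; simp [update_of_ne hab.symm]
      · by_cases a2 : k = a
        · subst a2; simp [update_of_ne a1]
        · simp [update_of_ne a1, update_of_ne a2]
    · simp only [List.length_cons]; omega

/-- Move stack `a` onto both `b` and `c`, reversing it. -/
def mv2 (a b c : ℕ) : Cmd :=
  .loop a (.test a .skip (.seq (.push b false) (.seq (.push c false) (.pop a)))
    (.seq (.push b true) (.seq (.push c true) (.pop a))))

theorem exec_mv2 {a b c : ℕ} (hab : a ≠ b) (hac : a ≠ c) (hbc : b ≠ c) :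
    ∀ (l : List Bool) (s : St), s a = l →
    Exec (mv2 a b c) s (update (update (update s a []) b (l.reverse ++ s b)) c (l.reverse ++ s c))
      (5 * l.length + 1) := by
  intro l
  induction l with
  | nil =>
    intro s hs
    refine (Exec.loopE hs).of_eq ?_ le_rfl
    funext k
    by_cases h0 : k = c
    · subst h0; simp
    by_cases h1 : k = b
    · subst h1; simp [update_of_ne h0]
    · by_cases h2 : k = a
      · subst h2; simp [update_of_ne h0, update_of_ne h1, hs]
      · simp [update_of_ne h0, update_of_ne h1, update_of_ne h2]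
  | cons x l ih =>
    intro s hs
    have h0 : Exec (.seq (.push b x) (.seq (.push c x) (.pop a))) s
        (update (update (update s b (x :: s b)) c (x :: s c)) a l) 3 := by
      refine ((Exec.push b x s).seq ((Exec.push c x _).seq (Exec.pop a _))).of_eq ?_ le_rfl
      simp [update_of_ne hab, update_of_ne hac, update_of_ne hbc.symm, hs]
    have h1 : Exec (.test a .skip (.seq (.push b false) (.seq (.push c false) (.pop a)))
        (.seq (.push b true) (.seq (.push c true) (.pop a))))
        s (update (update (update s b (x :: s b)) c (x :: s c)) a l) 4 := by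
      cases x
      · exact Exec.testF hs h0
      · exact Exec.testT hs h0
    have h2 := ih (update (update (update s b (x :: s b)) c (x :: s c)) a l) (by simp)
    refine (Exec.loopS (by simp [hs]) h1 h2).of_eq ?_ ?_
    · funext k
      by_cases a0 : k = c
      · subst a0; simp [update_of_ne hac.symm]
      by_cases a1 : k = b
      · subst a1; simp [update_of_ne hab.symm, update_of_ne a0]
      · by_cases a2 : k = a
        · subst a2; simp [update_of_ne a0, update_of_ne a1]
        · simp [update_of_ne a0, update_of_ne a1, update_of_ne a2]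
    · simp only [List.length_cons]; omega

/-- Replace stack `b` by stack `a`, emptying `a` (stack `a+1` is scratch). -/
def assign (a b : ℕ) : Cmd := .seq (clear b) (.seq (mv a (a + 1)) (mv (a + 1) b))

theorem exec_assign {a b : ℕ} (hab : b < a) (s : St) (hs : s (a + 1) = []) :
    Exec (assign a b) s (update (update s a []) b (s a))
      (2 * (s b).length + 8 * (s a).length + 3) := by
  have h1 := exec_clear b _ s rfl
  have h2 := exec_mv (a := a) (b := a + 1) (by omega) (s a) (update s b [])
    (by rw [update_of_ne (by omega)])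
  have h3 := exec_mv (a := a + 1) (b := b) (by omega) (s a).reverse
    (update (update (update s b []) a []) (a + 1) ((s a).reverse ++ update s b [] (a + 1)))
    (by rw [update_self, update_of_ne (by omega), hs, List.append_nil])
  refine (h1.seq (h2.seq h3)).of_eq ?_ ?_
  · funext k
    by_cases e1 : k = b
    · subst e1
      simp [update_of_ne (show k ≠ a + 1 by omega), update_of_ne (show k ≠ a by omega)]
    by_cases e2 : k = a + 1
    · subst e2
      simp [update_of_ne e1, hs]
    by_cases e3 : k = a
    · subst e3
      simp [update_of_ne e1]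
    · simp [update_of_ne e1, update_of_ne e2, update_of_ne e3]
  · simp only [List.length_reverse]; omega

/-- Functions of `n` bit strings that can be evaluated at polynomial cost, in any calling
context: arguments on stacks below `b`, result on stack `b`, scratch above. -/
def PT (n : ℕ) (f : (Fin n → List Bool) → List Bool) : Prop :=
  ∀ (b : ℕ) (ρ : Fin n → ℕ), (∀ i, ρ i < b) → ∃ (c : Cmd) (p : Polynomial ℕ),
    ∀ (s : St) (N : ℕ), (∀ k, b ≤ k → s k = []) → (∀ i, (s (ρ i)).length ≤ N) →
      Exec c s (update s b (f fun i => s (ρ i))) (p.eval N)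

namespace PT

theorem of_eq {n : ℕ} {f g : (Fin n → List Bool) → List Bool} (h : PT n f)
    (e : ∀ v, f v = g v) : PT n g := by
  have : f = g := funext e
  exact this ▸ h

theorem size {n : ℕ} {f : (Fin n → List Bool) → List Bool} (h : PT n f) :
    ∃ p : Polynomial ℕ, ∀ (v : Fin n → List Bool) (N : ℕ), (∀ i, (v i).length ≤ N) →
      (f v).length ≤ p.eval N := by
  obtain ⟨c, p, hc⟩ := h n (fun i => i) (fun i => i.2)
  refine ⟨p, fun v N hv => ?_⟩
  have := (hc (fun k => if h : k < n then v ⟨k, h⟩ else []) N
    (fun k hk => by simp [show ¬ k < n by omega]) (fun i => by simpa using hv i)).length_le n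
  simpa using this

theorem ren {n m : ℕ} {f : (Fin n → List Bool) → List Bool} (h : PT n f) (σ : Fin n → Fin m) :
    PT m (fun v => f (fun i => v (σ i))) := by
  intro b ρ hρ
  obtain ⟨c, p, hc⟩ := h b (fun i => ρ (σ i)) (fun i => hρ _)
  exact ⟨c, p, fun s N h1 h2 => hc s N h1 (fun i => h2 _)⟩

theorem nil {n : ℕ} : PT n (fun _ => []) := by
  intro b ρ _
  refine ⟨.skip, 0, fun s N h1 _ => (Exec.skip s).of_eq ?_ (Nat.zero_le _)⟩
  rw [← h1 b le_rfl, update_eq_self]

theorem cons {n : ℕ} {f : (Fin n → List Bool) → List Bool} (x : Bool) (h : PT n f) :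
    PT n (fun v => x :: f v) := by
  intro b ρ hρ
  obtain ⟨c, p, hc⟩ := h b ρ hρ
  refine ⟨.seq c (.push b x), p + 1, fun s N h1 h2 => ?_⟩
  exact ((hc s N h1 h2).seq (Exec.push b x _)).of_eq (by simp) (by simp)

theorem tail {n : ℕ} {f : (Fin n → List Bool) → List Bool} (h : PT n f) :
    PT n (fun v => (f v).tail) := by
  intro b ρ hρ
  obtain ⟨c, p, hc⟩ := h b ρ hρ
  refine ⟨.seq c (.pop b), p + 1, fun s N h1 h2 => ?_⟩
  exact ((hc s N h1 h2).seq (Exec.pop b _)).of_eq (by simp) (by simp)

theorem var {n : ℕ} (i : Fin n) : PT n (fun v => v i) := by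
  intro b ρ hρ
  have hi := hρ i
  refine ⟨.seq (mv (ρ i) (b + 1)) (mv2 (b + 1) (ρ i) b), 9 * X + 2, fun s N h1 h2 => ?_⟩
  have e1 := exec_mv (a := ρ i) (b := b + 1) (by omega) _ s rfl
  have e2 := exec_mv2 (a := b + 1) (b := ρ i) (c := b) (by omega) (by omega) (by omega)
    (s (ρ i)).reverse (update (update s (ρ i) []) (b + 1) ((s (ρ i)).reverse ++ s (b + 1)))
    (by rw [update_self, h1 (b + 1) (by omega), List.append_nil])
  refine (e1.seq e2).of_eq ?_ ?_
  · funext k
    by_cases a1 : k = b
    · subst a1
      simp [update_of_ne (show k ≠ ρ i by omega), h1 k le_rfl]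
    by_cases a2 : k = ρ i
    · subst a2
      simp [update_of_ne a1, update_of_ne (show ρ i ≠ b + 1 by omega)]
    by_cases a3 : k = b + 1
    · subst a3
      simp [update_of_ne a2, h1 (b + 1) (by omega)]
    · simp [update_of_ne a1, update_of_ne a2, update_of_ne a3]
  · have := h2 i
    simp only [List.length_reverse, eval_add, eval_mul, eval_ofNat, eval_X]
    omega

theorem cons_lt {n b b' : ℕ} {ρ : Fin n → ℕ} (hρ : ∀ i, ρ i < b) (hb : b < b') :
    ∀ i : Fin (n + 1), (Fin.cons b ρ : Fin (n + 1) → ℕ) i < b' := by
  intro i
  refine Fin.cases ?_ (fun j => ?_) i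
  · simpa using hb
  · have := hρ j
    simp only [Fin.cons_succ]; omega

theorem bind {n : ℕ} {g : (Fin n → List Bool) → List Bool}
    {f : (Fin (n + 1) → List Bool) → List Bool} (hg : PT n g) (hf : PT (n + 1) f) :
    PT n (fun v => f (Fin.cons (g v) v)) := by
  intro b ρ hρ
  obtain ⟨c1, p1, h1⟩ := hg b ρ hρ
  obtain ⟨c2, p2, h2⟩ := hf (b + 1) (Fin.cons b ρ) (cons_lt hρ (Nat.lt_succ_self b))
  obtain ⟨q1, hq1⟩ := hg.size
  obtain ⟨q2, hq2⟩ := hf.size
  refine ⟨.seq c1 (.seq c2 (assign (b + 1) b)),
    p1 + p2.comp (X + q1) + 2 * q1 + 8 * q2.comp (X + q1) + 3, fun s N hs hN => ?_⟩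
  set v : Fin n → List Bool := fun i => s (ρ i) with hv
  have hgv := hq1 v N hN
  have e1 := h1 s N hs hN
  have hargs : (fun i => update s b (g v) ((Fin.cons b ρ : Fin (n + 1) → ℕ) i)) =
      (Fin.cons (g v) v : Fin (n + 1) → List Bool) := by
    funext i
    refine Fin.cases ?_ (fun j => ?_) i
    · simp
    · have := hρ j
      simp [update_of_ne (show ρ j ≠ b by omega), hv]
  have hlen : ∀ i, ((Fin.cons (g v) v : Fin (n + 1) → List Bool) i).length ≤ N + q1.eval N := by
    intro i
    refine Fin.cases ?_ (fun j => ?_) i
    · simp only [Fin.cons_zero]; omega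
    · have := hN j
      simp only [Fin.cons_succ, hv]; omega
  have e2 := h2 (update s b (g v)) (N + q1.eval N)
    (fun k hk => by rw [update_of_ne (by omega)]; exact hs k (by omega))
    (fun i => by have := hlen i; rw [← hargs] at this; exact this)
  rw [hargs] at e2
  have hfv := hq2 _ _ hlen
  have e3 := exec_assign (a := b + 1) (b := b) (by omega)
    (update (update s b (g v)) (b + 1) (f (Fin.cons (g v) v)))
    (by rw [update_of_ne (by omega), update_of_ne (by omega)]; exact hs _ (by omega))
  refine (e1.seq (e2.seq e3)).of_eq ?_ ?_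
  · funext k
    by_cases a1 : k = b
    · subst a1; simp [hv]
    by_cases a2 : k = b + 1
    · subst a2; simp [hs (b + 1) (by omega)]
    · simp [update_of_ne a1, update_of_ne a2]
  · simp only [update_self, update_of_ne (show b ≠ b + 1 by omega), eval_add, eval_mul,
      eval_comp, eval_X, eval_ofNat]
    omega

/-- Case distinction on the first bit. -/
def sel (x e f t : List Bool) : List Bool :=
  match x with
  | [] => e
  | false :: _ => f
  | true :: _ => t

theorem selVar {n : ℕ} (i : Fin n) {e f t : (Fin n → List Bool) → List Bool}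
    (he : PT n e) (hf : PT n f) (ht : PT n t) : PT n (fun v => sel (v i) (e v) (f v) (t v)) := by
  intro b ρ hρ
  obtain ⟨c1, p1, h1⟩ := he b ρ hρ
  obtain ⟨c2, p2, h2⟩ := hf b ρ hρ
  obtain ⟨c3, p3, h3⟩ := ht b ρ hρ
  refine ⟨.test (ρ i) c1 c2 c3, p1 + p2 + p3 + 1, fun s N hs hN => ?_⟩
  rcases hx : s (ρ i) with _ | ⟨_ | _, l⟩
  · exact (Exec.testE hx (h1 s N hs hN)).of_eq (by simp [sel, hx]) (by simp; omega)
  · exact (Exec.testF hx (h2 s N hs hN)).of_eq (by simp [sel, hx]) (by simp; omega)
  · exact (Exec.testT hx (h3 s N hs hN)).of_eq (by simp [sel, hx]) (by simp)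

theorem weaken {n : ℕ} {f : (Fin n → List Bool) → List Bool} (h : PT n f) :
    PT (n + 1) (fun v => f (fun i => v i.succ)) := h.ren Fin.succ

theorem sel' {n : ℕ} {x e f t : (Fin n → List Bool) → List Bool} (hx : PT n x)
    (he : PT n e) (hf : PT n f) (ht : PT n t) : PT n (fun v => sel (x v) (e v) (f v) (t v)) :=
  (hx.bind (selVar 0 he.weaken hf.weaken ht.weaken)).of_eq fun v => by simp

/-- One step of a fold over the bits of a string. -/
def stepF {n : ℕ} (h0 h1 : (Fin (n + 1) → List Bool) → List Bool) (v : Fin n → List Bool)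
    (acc : List Bool) (x : Bool) : List Bool :=
  if x then h1 (Fin.cons acc v) else h0 (Fin.cons acc v)

theorem foldl {n : ℕ} {x a : (Fin n → List Bool) → List Bool}
    {h0 h1 : (Fin (n + 1) → List Bool) → List Bool} (hx : PT n x) (ha : PT n a)
    (hh0 : PT (n + 1) h0) (hh1 : PT (n + 1) h1)
    (hb : ∃ q : Polynomial ℕ, ∀ (v : Fin n → List Bool) (N : ℕ), (∀ i, (v i).length ≤ N) →
      ∀ j, (((x v).take j).foldl (stepF h0 h1 v) (a v)).length ≤ q.eval N) :
    PT n (fun v => (x v).foldl (stepF h0 h1 v) (a v)) := by
  intro b ρ hρ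
  obtain ⟨q, hq⟩ := hb
  obtain ⟨ca, pa, ea⟩ := ha b ρ hρ
  obtain ⟨cx, px, ex⟩ := hx (b + 1) ρ (fun i => by have := hρ i; omega)
  obtain ⟨c0, p0, e0⟩ := hh0 (b + 2) (Fin.cons b ρ) (cons_lt hρ (by omega))
  obtain ⟨c1, p1, e1⟩ := hh1 (b + 2) (Fin.cons b ρ) (cons_lt hρ (by omega))
  obtain ⟨qx, hqx⟩ := hx.size
  set fin : Cmd := .seq (assign (b + 2) b) (.pop (b + 1)) with hfin
  set body : Cmd := .test (b + 1) .skip (.seq c0 fin) (.seq c1 fin) with hbody
  have loopOK : ∀ (v : Fin n → List Bool) (N Q : ℕ) (l : List Bool) (s : St),
      s (b + 1) = l → (∀ k, b + 2 ≤ k → s k = []) → (fun i => s (ρ i)) = v →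
      (∀ i, (v i).length ≤ N) →
      (∀ j, ((l.take j).foldl (stepF h0 h1 v) (s b)).length ≤ Q) →
      Exec (.loop (b + 1) body) s
        (update (update s b (l.foldl (stepF h0 h1 v) (s b))) (b + 1) [])
        (l.length * (p0.eval (N + Q) + p1.eval (N + Q) + 10 * Q + 6) + 1) := by
    intro v N Q l
    induction l with
    | nil =>
      intro s hs _ _ _ _
      refine (Exec.loopE hs).of_eq ?_ (by simp)
      simp only [List.foldl_nil, update_eq_self]
      rw [← hs, update_eq_self]
    | cons y l ih =>
      intro s hs hs2 hv hN hQ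
      have hargs : (fun i => s ((Fin.cons b ρ : Fin (n + 1) → ℕ) i)) =
          (Fin.cons (s b) v : Fin (n + 1) → List Bool) := by
        funext i
        refine Fin.cases ?_ (fun j => ?_) i
        · simp
        · simp [← hv]
      have hQ0 : (s b).length ≤ Q := by simpa using hQ 0
      have hQ1 : (stepF h0 h1 v (s b) y).length ≤ Q := by simpa using hQ 1
      have hlen : ∀ i, (s ((Fin.cons b ρ : Fin (n + 1) → ℕ) i)).length ≤ N + Q := by
        intro i
        refine Fin.cases ?_ (fun j => ?_) i
        · simp only [Fin.cons_zero]; omega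
        · have : (s (ρ j)).length ≤ N := by
            have := hN j
            rw [← hv] at this
            exact this
          simp only [Fin.cons_succ]; omega
      have hf : Exec fin (update s (b + 2) (stepF h0 h1 v (s b) y))
          (update (update s b (stepF h0 h1 v (s b) y)) (b + 1) l) (10 * Q + 4) := by
        have a1 := exec_assign (a := b + 2) (b := b) (by omega)
          (update s (b + 2) (stepF h0 h1 v (s b) y))
          (by rw [update_of_ne (by omega)]; exact hs2 _ (by omega))
        refine (a1.seq (Exec.pop (b + 1) _)).of_eq ?_ ?_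
        · funext k
          by_cases a1 : k = b + 1
          · subst a1; simp [hs]
          by_cases a2 : k = b
          · subst a2; simp
          by_cases a3 : k = b + 2
          · subst a3; simp [hs2 (b + 2) le_rfl]
          · simp [update_of_ne a1, update_of_ne a2, update_of_ne a3]
        · simp only [update_self, update_of_ne (show b ≠ b + 2 by omega)]
          omega
      have hbd : Exec body s (update (update s b (stepF h0 h1 v (s b) y)) (b + 1) l)
          (p0.eval (N + Q) + p1.eval (N + Q) + 10 * Q + 5) := by
        cases y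
        · have a0 := e0 s (N + Q) hs2 hlen
          rw [hargs] at a0
          exact (Exec.testF hs (a0.seq hf)).mono (by omega)
        · have a0 := e1 s (N + Q) hs2 hlen
          rw [hargs] at a0
          exact (Exec.testT hs (a0.seq hf)).mono (by omega)
      have hrec := ih (update (update s b (stepF h0 h1 v (s b) y)) (b + 1) l) (by simp)
        (fun k hk => by
          rw [update_of_ne (by omega), update_of_ne (by omega)]; exact hs2 k hk)
        (by
          rw [← hv]
          funext i
          have := hρ i
          rw [update_of_ne (by omega), update_of_ne (by omega)])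
        hN
        (fun j => by
          have := hQ (j + 1)
          simpa using this)
      refine (Exec.loopS (by simp [hs]) hbd hrec).of_eq ?_ ?_
      · funext k
        by_cases a1 : k = b + 1
        · subst a1; simp
        by_cases a2 : k = b
        · subst a2; simp
        · simp [update_of_ne a1, update_of_ne a2]
      · simp only [List.length_cons]
        ring_nf
        omega
  refine ⟨.seq ca (.seq cx (.loop (b + 1) body)),
    pa + px + qx * (p0.comp (X + q) + p1.comp (X + q) + 10 * q + 6) + 1, fun s N hs hN => ?_⟩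
  set v : Fin n → List Bool := fun i => s (ρ i) with hv
  have a1 := ea s N hs hN
  have hargs : (fun i => update s b (a v) (ρ i)) = v := by
    funext i
    have := hρ i
    rw [update_of_ne (by omega)]
  have a2 := ex (update s b (a v)) N
    (fun k hk => by rw [update_of_ne (by omega)]; exact hs k (by omega))
    (fun i => by have := hρ i; rw [update_of_ne (by omega)]; exact hN i)
  rw [hargs] at a2
  have a3 := loopOK v N (q.eval N) (x v) (update (update s b (a v)) (b + 1) (x v)) (by simp)
    (fun k hk => by
      rw [update_of_ne (by omega), update_of_ne (by omega)]; exact hs k (by omega))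
    (by
      funext i
      have := hρ i
      rw [update_of_ne (by omega), update_of_ne (by omega)])
    hN (fun j => by simpa using hq v N hN j)
  refine (a1.seq (a2.seq a3)).of_eq ?_ ?_
  · funext k
    by_cases b1 : k = b + 1
    · subst b1; simp [hs (b + 1) (by omega)]
    by_cases b2 : k = b
    · subst b2; simp [hv]
    · simp [update_of_ne b1, update_of_ne b2]
  · have := Nat.mul_le_mul_right
      (p0.eval (N + q.eval N) + p1.eval (N + q.eval N) + 10 * q.eval N + 6) (hqx v N hN)
    simp only [eval_add, eval_mul, eval_comp, eval_X, eval_ofNat, eval_one]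
    omega

/-- A one-argument function of polynomial cost is computed by a polynomial-time TM2 machine. -/
theorem tm2 {F : List Bool → List Bool} (h : PT 1 (fun v => F (v 0))) {α β : Type}
    (ea : α → List Bool) (eb : β → List Bool) (f : α → β) (hf : ∀ a, F (ea a) = eb (f a)) :
    Nonempty (Turing.TM2ComputableInPolyTime ea eb f) := by
  obtain ⟨c, p, hc⟩ := h 1 (fun _ => 0) (fun _ => Nat.one_pos)
  refine tm2_of_exec ea eb f (.seq c (clear 0)) (p + 2 * X + 1) fun a => ?_
  have e1 := hc (update (fun _ => []) 0 (ea a)) (ea a).length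
    (fun k hk => by rw [update_of_ne (by omega)]) (fun _ => by simp)
  have e2 := exec_clear 0 (ea a) (update (update (fun _ => []) 0 (ea a)) 1
    (F (update (fun _ => ([] : List Bool)) 0 (ea a) 0))) (by simp)
  refine (e1.seq e2).of_eq ?_ ?_
  · funext k
    by_cases a1 : k = 0
    · subst a1; simp
    by_cases a2 : k = 1
    · subst a2; simp [hf]
    · simp [update_of_ne a1, update_of_ne a2]
  · simp only [eval_add, eval_mul, eval_X, eval_ofNat, eval_one]
    omega

end PT

end Pool.Agent.Shared.PolyTime
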