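import Mathlib
import Pool.Agent.Shared.PolyTime.Cobham
import Pool.Agent.Shared.PolyTime.Enc

/-!
Basic string functions of polynomial cost.
-/

set_option autoImplicit false

namespace Pool.Agent.Shared.PolyTime

open Function Polynomial

namespace PT

variable {n : ℕ}

theorem const (l : List Bool) : PT n (fun _ => l) := by
  induction l with
  | nil => exact nil
  | cons b l ih => exact ih.cons b

theorem app1 {F : List Bool → List Bool} (hF : PT 1 (fun v => F (v 0)))
    {g : (Fin n → List Bool) → List Bool} (hg : PT n g) : PT n (fun v => F (g v)) :=
  (hg.bind (hF.ren (fun _ => (0 : Fin (n + 1))))).of_eq fun v => by simp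

/-- A fold whose step lengthens the accumulator by a polynomially bounded amount. -/
theorem foldl_add {x a : (Fin n → List Bool) → List Bool}
    {h0 h1 : (Fin (n + 1) → List Bool) → List Bool} (hx : PT n x) (ha : PT n a)
    (hh0 : PT (n + 1) h0) (hh1 : PT (n + 1) h1)
    (hb : ∃ r : Polynomial ℕ, ∀ (v : Fin n → List Bool) (N : ℕ), (∀ i, (v i).length ≤ N) →
      ∀ acc y, (stepF h0 h1 v acc y).length ≤ acc.length + r.eval N) :
    PT n (fun v => (x v).foldl (stepF h0 h1 v) (a v)) := by
  obtain ⟨r, hr⟩ := hb
  obtain ⟨pa, hpa⟩ := ha.size
  obtain ⟨px, hpx⟩ := hx.size
  refine foldl hx ha hh0 hh1 ⟨pa + px * r, fun v N hv j => ?_⟩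
  have key : ∀ (l acc : List Bool), (l.foldl (stepF h0 h1 v) acc).length ≤
      acc.length + l.length * r.eval N := by
    intro l
    induction l with
    | nil => simp
    | cons y l ih =>
      intro acc
      have h1 := ih (stepF h0 h1 v acc y)
      have h2 := hr v N hv acc y
      simp only [List.foldl_cons, List.length_cons]
      rw [Nat.add_mul]
      omega
  have h1 := key ((x v).take j) (a v)
  have h2 := hpa v N hv
  have h3 : ((x v).take j).length ≤ px.eval N :=
    le_trans (by simp) (hpx v N hv)
  have h4 := Nat.mul_le_mul_right (r.eval N) h3
  simp only [eval_add, eval_mul]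
  omega

theorem revapp {f g : (Fin n → List Bool) → List Bool} (hf : PT n f) (hg : PT n g) :
    PT n (fun v => (f v).reverse ++ g v) := by
  refine (foldl_add hf hg ((var 0).cons false) ((var 0).cons true)
    ⟨1, fun v N _ acc y => by cases y <;> simp [stepF]⟩).of_eq fun v => ?_
  generalize g v = acc
  induction f v generalizing acc with
  | nil => simp
  | cons y l ih => rw [List.foldl_cons, ih]; cases y <;> simp [stepF]

theorem reverse {f : (Fin n → List Bool) → List Bool} (hf : PT n f) :
    PT n (fun v => (f v).reverse) := (revapp hf nil).of_eq fun v => by simp

theorem append {f g : (Fin n → List Bool) → List Bool} (hf : PT n f) (hg : PT n g) :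
    PT n (fun v => f v ++ g v) := (revapp hf.reverse hg).of_eq fun v => by simp

theorem drop {u f : (Fin n → List Bool) → List Bool} (hu : PT n u) (hf : PT n f) :
    PT n (fun v => (f v).drop (u v).length) := by
  refine (foldl_add hu hf (var 0).tail (var 0).tail
    ⟨0, fun v N _ acc y => by cases y <;> simp [stepF]⟩).of_eq fun v => ?_
  generalize f v = acc
  induction u v generalizing acc with
  | nil => simp
  | cons y l ih => rw [List.foldl_cons, ih]; cases y <;> simp [stepF]

theorem take {u f : (Fin n → List Bool) → List Bool} (hu : PT n u) (hf : PT n f) :
    PT n (fun v => (f v).take (u v).length) := by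
  refine ((drop (drop hu hf) hf.reverse).reverse).of_eq fun v => ?_
  rw [List.length_drop, List.drop_reverse, List.reverse_reverse]
  rcases le_total (u v).length (f v).length with h | h
  · congr 1; omega
  · rw [List.take_of_length_le h, List.take_of_length_le (by omega)]

theorem ones {u : (Fin n → List Bool) → List Bool} (hu : PT n u) :
    PT n (fun v => List.replicate (u v).length true) := by
  refine (foldl_add hu nil ((var 0).cons true) ((var 0).cons true)
    ⟨1, fun v N _ acc y => by cases y <;> simp [stepF]⟩).of_eq fun v => ?_
  have : ∀ (l : List Bool) (k : ℕ), l.foldl (stepF (fun w => true :: w 0) (fun w => true :: w 0) v)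
      (List.replicate k true) = List.replicate (l.length + k) true := by
    intro l
    induction l with
    | nil => simp
    | cons y l ih =>
      intro k
      have e : stepF (fun w => true :: w 0) (fun w => true :: w 0) v (List.replicate k true) y =
          List.replicate (k + 1) true := by cases y <;> simp [stepF, List.replicate_succ]
      rw [List.foldl_cons, e, ih, List.length_cons]
      congr 1; omega
  simpa using this (u v) 0

theorem mulU {u w : (Fin n → List Bool) → List Bool} (hu : PT n u) (hw : PT n w) :
    PT n (fun v => List.replicate ((u v).length * (w v).length) true) := by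
  obtain ⟨pw, hpw⟩ := hw.size
  have hs : PT (n + 1) (fun z => List.replicate (w (fun i => z i.succ)).length true ++ z 0) :=
    append hw.ones.weaken (var 0)
  refine (foldl_add hu nil hs hs
    ⟨pw, fun v N hv acc y => by
      have : (w (fun i => v i)).length ≤ pw.eval N := hpw v N hv
      cases y <;> simp [stepF] <;> omega⟩).of_eq fun v => ?_
  have : ∀ (l : List Bool) (k : ℕ), l.foldl (stepF
      (fun z => List.replicate (w (fun i => z i.succ)).length true ++ z 0)
      (fun z => List.replicate (w (fun i => z i.succ)).length true ++ z 0) v)
      (List.replicate k true) = List.replicate (l.length * (w v).length + k) true := by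
    intro l
    induction l with
    | nil => simp
    | cons y l ih =>
      intro k
      have e : stepF (fun z => List.replicate (w (fun i => z i.succ)).length true ++ z 0)
          (fun z => List.replicate (w (fun i => z i.succ)).length true ++ z 0) v
          (List.replicate k true) y = List.replicate ((w v).length + k) true := by
        cases y <;> simp [stepF]
      rw [List.foldl_cons, e, ih, List.length_cons]
      congr 1; ring
  simpa using this (u v) 0

theorem polyU {u : (Fin n → List Bool) → List Bool} (hu : PT n u) (q : Polynomial ℕ) :
    PT n (fun v => List.replicate (q.eval (u v).length) true) := by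
  induction q using Polynomial.induction_on with
  | C a => exact (const (List.replicate a true)).of_eq fun v => by simp
  | add p q hp hq => exact (append hp hq).of_eq fun v => by simp
  | monomial k a h =>
    refine (mulU h hu).of_eq fun v => ?_
    simp [pow_succ, mul_assoc]

/-- The block of leading ones. -/
def lead (x : List Bool) : List Bool :=
  (x.foldl (fun acc y => if y then sel acc [] acc (true :: acc) else false :: acc.tail)
    [true]).tail

theorem lead_pt {f : (Fin n → List Bool) → List Bool} (hf : PT n f) :
    PT n (fun v => lead (f v)) := by
  refine (foldl_add hf (const [true]) ((var 0).tail.cons false)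
    (sel' (var 0) nil (var 0) ((var 0).cons true))
    ⟨1, fun v N _ acc y => ?_⟩).tail.of_eq fun v => ?_
  · cases y
    · simp [stepF]
    · rcases acc with _ | ⟨_ | _, l⟩ <;> simp [stepF, sel]
  · unfold lead
    congr 2

theorem lead_spec (k : ℕ) (y : List Bool) :
    lead (List.replicate k true ++ false :: y) = List.replicate k true := by
  unfold lead
  have h1 : ∀ (l c : List Bool), l.foldl
      (fun acc y => if y then sel acc [] acc (true :: acc) else false :: acc.tail) (false :: c) =
      false :: c := by
    intro l
    induction l with
    | nil => simp
    | cons z l ih => intro c; cases z <;> exact ih c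
  have h2 : ∀ (k j : ℕ), (List.replicate k true).foldl
      (fun acc y => if y then sel acc [] acc (true :: acc) else false :: acc.tail)
      (true :: List.replicate j true) = true :: List.replicate (j + k) true := by
    intro k
    induction k with
    | zero => simp
    | succ k ih =>
      intro j
      have := ih (j + 1)
      rw [List.replicate_succ, List.foldl_cons]
      refine Eq.trans this ?_
      congr 2; omega
  have h3 := h2 k 0
  rw [List.foldl_append]
  simp only [List.replicate_zero, zero_add] at h3
  rw [h3, List.foldl_cons]
  simp [h1]

/-- First component of an encoded pair. -/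
def fstS (z : List Bool) : List Bool := (z.drop (true :: lead z).length).take (lead z).length

/-- Second component of an encoded pair. -/
def sndS (z : List Bool) : List Bool := (z.drop (true :: lead z).length).drop (lead z).length

theorem fstS_pt {f : (Fin n → List Bool) → List Bool} (hf : PT n f) :
    PT n (fun v => fstS (f v)) := take (lead_pt hf) (drop ((lead_pt hf).cons true) hf)

theorem sndS_pt {f : (Fin n → List Bool) → List Bool} (hf : PT n f) :
    PT n (fun v => sndS (f v)) := drop (lead_pt hf) (drop ((lead_pt hf).cons true) hf)

theorem pair_pt {f g : (Fin n → List Bool) → List Bool} (hf : PT n f) (hg : PT n g) :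
    PT n (fun v => encPair (f v) (g v)) := append hf.ones ((append hf hg).cons false)

theorem drop_pair (x y : List Bool) :
    (encPair x y).drop (true :: lead (encPair x y)).length = x ++ y := by
  unfold encPair
  rw [lead_spec]
  have : List.replicate x.length true ++ false :: (x ++ y) =
      (List.replicate x.length true ++ [false]) ++ (x ++ y) := by simp
  rw [this, List.drop_left' (by simp)]

theorem fstS_pair (x y : List Bool) : fstS (encPair x y) = x := by
  unfold fstS
  rw [drop_pair]
  unfold encPair
  rw [lead_spec]
  simp

theorem sndS_pair (x y : List Bool) : sndS (encPair x y) = y := by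
  unfold sndS
  rw [drop_pair]
  unfold encPair
  rw [lead_spec]
  simp

theorem sel_pair (x y e f : List Bool) : sel (encPair x y) e f f = f := by
  unfold encPair
  rcases x with _ | ⟨b, x⟩ <;> simp [sel, List.replicate_succ]

end PT

theorem length_encPair (x y : List Bool) :
    (encPair x y).length = 2 * x.length + y.length + 1 := by
  simp [encPair]; omega

theorem encList_append {α : Type} (e : α → List Bool) (l m : List α) :
    encList e (l ++ m) = encList e l ++ encList e m := by
  induction l with
  | nil => rfl
  | cons a l ih => simp [encList, encPair, ih]

end Pool.Agent.Shared.PolyTime
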