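import Mathlib
import Pool.Agent.Shared.PolyTime.Strings

/-!
A typed interface: `PF f` says that `f` is computed on encodings at polynomial cost.
Goals `PF f` for explicit `f` are usually closed by `fun_prop`.
`PF.tm2` turns `PF` into Mathlib's `TM2ComputableInPolyTime`.
-/

set_option autoImplicit false

namespace Pool.Agent.Shared.PolyTime

open Function Polynomial

/-- Types with a chosen encoding by bit strings. -/
class Enc (α : Type) where
  /-- the encoding -/
  enc : α → List Bool

open Enc

instance encUnit : Enc Unit := ⟨fun _ => []⟩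
instance encBoolInst : Enc Bool := ⟨fun b => [b]⟩
instance encNatInst : Enc ℕ := ⟨encNat⟩
instance encProd {α β : Type} [Enc α] [Enc β] : Enc (α × β) :=
  ⟨fun p => encPair (enc p.1) (enc p.2)⟩
instance encListInst {α : Type} [Enc α] : Enc (List α) := ⟨encList enc⟩

theorem enc_bool (b : Bool) : enc b = [b] := rfl
theorem enc_nat (n : ℕ) : enc n = List.replicate n true := rfl
theorem enc_prod {α β : Type} [Enc α] [Enc β] (a : α) (b : β) :
    enc (a, b) = encPair (enc a) (enc b) := rfl
theorem enc_nil {α : Type} [Enc α] : enc ([] : List α) = [] := rfl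
theorem enc_cons {α : Type} [Enc α] (a : α) (l : List α) :
    enc (a :: l) = encPair (enc a) (enc l) := rfl
theorem enc_append {α : Type} [Enc α] (l m : List α) : enc (l ++ m) = enc l ++ enc m :=
  encList_append _ l m
theorem enc_list {α : Type} [Enc α] (l : List α) : enc l = encList enc l := rfl

@[simp] theorem len_bool (b : Bool) : (enc b).length = 1 := rfl
@[simp] theorem len_nat (n : ℕ) : (enc n).length = n := by simp [enc_nat]
@[simp] theorem len_prod {α β : Type} [Enc α] [Enc β] (a : α) (b : β) :
    (enc (a, b)).length = 2 * (enc a).length + (enc b).length + 1 := length_encPair _ _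
@[simp] theorem len_nil {α : Type} [Enc α] : (enc ([] : List α)).length = 0 := rfl
@[simp] theorem len_cons {α : Type} [Enc α] (a : α) (l : List α) :
    (enc (a :: l)).length = 2 * (enc a).length + (enc l).length + 1 := length_encPair _ _
@[simp] theorem len_append {α : Type} [Enc α] (l m : List α) :
    (enc (l ++ m)).length = (enc l).length + (enc m).length := by
  rw [enc_append, List.length_append]

theorem length_le_len {α : Type} [Enc α] (l : List α) : l.length ≤ (enc l).length := by
  induction l with
  | nil => simp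
  | cons a l ih => simp; omega

theorem len_le_of_mem {α : Type} [Enc α] {l : List α} {a : α} (h : a ∈ l) :
    (enc a).length ≤ (enc l).length := by
  induction l with
  | nil => simp at h
  | cons b l ih =>
    rcases List.mem_cons.1 h with rfl | h
    · simp; omega
    · have := ih h
      simp; omega

theorem len_le_of_sublist {α : Type} [Enc α] {l m : List α} (h : l.Sublist m) :
    (enc l).length ≤ (enc m).length := by
  induction h with
  | slnil => simp
  | cons a _ ih => simp; omega
  | cons_cons a _ ih => simp; omega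

theorem len_le_mul {α : Type} [Enc α] (l : List α) (B : ℕ) (h : ∀ a ∈ l, (enc a).length ≤ B) :
    (enc l).length ≤ l.length * (2 * B + 1) := by
  induction l with
  | nil => simp
  | cons a l ih =>
    have h1 := h a (by simp)
    have h2 := ih fun b hb => h b (by simp [hb])
    simp only [len_cons, List.length_cons, Nat.add_mul]
    omega

/-- `f` is computed on encodings at polynomial cost. -/
@[fun_prop]
def PF {α β : Type} [Enc α] [Enc β] (f : α → β) : Prop :=
  ∃ F : List Bool → List Bool, PT 1 (fun v => F (v 0)) ∧ ∀ a, F (enc a) = enc (f a)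

namespace PF

variable {α β γ δ : Type} [Enc α] [Enc β] [Enc γ] [Enc δ]

/-- Bridge to Mathlib: the encodings of the statement only have to factor through `enc`. -/
theorem tm2 {φ : α → β} (hφ : PF φ) {A B : Type} (ea : A → List Bool) (eb : B → List Bool)
    (f : A → B) (d : A → α) (h1 : ∀ x, ea x = enc (d x)) (h2 : ∀ x, eb (f x) = enc (φ (d x))) :
    Nonempty (Turing.TM2ComputableInPolyTime ea eb f) := by
  obtain ⟨F, hF, hs⟩ := hφ
  exact hF.tm2 ea eb f fun a => by rw [h1, h2, hs]

theorem of_eq {f g : α → β} (h : PF f) (e : ∀ a, f a = g a) : PF g := by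
  have : f = g := funext e
  exact this ▸ h

theorem size {f : α → β} (h : PF f) :
    ∃ p : Polynomial ℕ, ∀ a N, (enc a).length ≤ N → (enc (f a)).length ≤ p.eval N := by
  obtain ⟨F, hF, hs⟩ := h
  obtain ⟨p, hp⟩ := hF.size
  exact ⟨p, fun a N h => by simpa [hs] using hp (fun _ => enc a) N (fun _ => h)⟩

@[fun_prop] theorem id' : PF (fun a : α => a) := ⟨fun x => x, PT.var 0, fun _ => rfl⟩

@[fun_prop] theorem const (b : β) : PF (fun _ : α => b) :=
  ⟨fun _ => enc b, PT.const _, fun _ => rfl⟩

@[fun_prop] theorem comp {f : β → γ} {g : α → β} (hf : PF f) (hg : PF g) :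
    PF (fun a => f (g a)) := by
  obtain ⟨F, hF, sF⟩ := hf
  obtain ⟨G, hG, sG⟩ := hg
  exact ⟨fun x => F (G x), PT.app1 hF hG, fun a => by beta_reduce; rw [sG, sF]⟩

@[fun_prop] theorem fst {f : α → β × γ} (hf : PF f) : PF (fun a => (f a).1) := by
  obtain ⟨F, hF, sF⟩ := hf
  exact ⟨fun x => PT.fstS (F x), PT.fstS_pt hF, fun a => by
    beta_reduce; rw [sF]; exact PT.fstS_pair _ _⟩

@[fun_prop] theorem snd {f : α → β × γ} (hf : PF f) : PF (fun a => (f a).2) := by
  obtain ⟨F, hF, sF⟩ := hf
  exact ⟨fun x => PT.sndS (F x), PT.sndS_pt hF, fun a => by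
    beta_reduce; rw [sF]; exact PT.sndS_pair _ _⟩

@[fun_prop] theorem pair {f : α → β} {g : α → γ} (hf : PF f) (hg : PF g) :
    PF (fun a => (f a, g a)) := by
  obtain ⟨F, hF, sF⟩ := hf
  obtain ⟨G, hG, sG⟩ := hg
  exact ⟨fun x => encPair (F x) (G x), PT.pair_pt hF hG, fun a => by
    beta_reduce; rw [sF, sG]; rfl⟩

@[fun_prop] theorem cond' {c : α → Bool} {f g : α → β} (hc : PF c) (hf : PF f) (hg : PF g) :
    PF (fun a => cond (c a) (f a) (g a)) := by
  obtain ⟨C, hC, sC⟩ := hc
  obtain ⟨F, hF, sF⟩ := hf
  obtain ⟨G, hG, sG⟩ := hg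
  refine ⟨fun x => PT.sel (C x) [] (G x) (F x), PT.sel' hC PT.nil hG hF, fun a => ?_⟩
  beta_reduce
  rw [sC, sF, sG]
  cases c a <;> rfl

theorem ite' {p : α → Prop} [DecidablePred p] {f g : α → β} (hc : PF (fun a => decide (p a)))
    (hf : PF f) (hg : PF g) : PF (fun a => if p a then f a else g a) :=
  (cond' hc hf hg).of_eq fun a => by by_cases h : p a <;> simp [h]

@[fun_prop] theorem not' {c : α → Bool} (hc : PF c) : PF (fun a => !(c a)) :=
  (cond' hc (const false) (const true)).of_eq fun a => by cases c a <;> rfl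

@[fun_prop] theorem and' {c d : α → Bool} (hc : PF c) (hd : PF d) : PF (fun a => c a && d a) :=
  (cond' hc hd (const false)).of_eq fun a => by cases c a <;> rfl

@[fun_prop] theorem or' {c d : α → Bool} (hc : PF c) (hd : PF d) : PF (fun a => c a || d a) :=
  (cond' hc (const true) hd).of_eq fun a => by cases c a <;> rfl

@[fun_prop] theorem beqBool {c d : α → Bool} (hc : PF c) (hd : PF d) :
    PF (fun a => c a == d a) :=
  (cond' hc hd (not' hd)).of_eq fun a => by cases c a <;> cases d a <;> rfl

/-- The length of the encoding. -/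
theorem encLen {f : α → β} (hf : PF f) : PF (fun a => (enc (f a)).length) := by
  obtain ⟨F, hF, sF⟩ := hf
  exact ⟨fun x => List.replicate (F x).length true, hF.ones, fun a => by
    beta_reduce; rw [sF]; rfl⟩

/-! Arithmetic -/

@[fun_prop] theorem add {f g : α → ℕ} (hf : PF f) (hg : PF g) : PF (fun a => f a + g a) := by
  obtain ⟨F, hF, sF⟩ := hf
  obtain ⟨G, hG, sG⟩ := hg
  exact ⟨fun x => F x ++ G x, hF.append hG, fun a => by simp [sF, sG, enc_nat]⟩

@[fun_prop] theorem succ {f : α → ℕ} (hf : PF f) : PF (fun a => Nat.succ (f a)) :=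
  add hf (const 1)

@[fun_prop] theorem sub {f g : α → ℕ} (hf : PF f) (hg : PF g) : PF (fun a => f a - g a) := by
  obtain ⟨F, hF, sF⟩ := hf
  obtain ⟨G, hG, sG⟩ := hg
  exact ⟨fun x => (F x).drop (G x).length, hG.drop hF, fun a => by simp [sF, sG, enc_nat]⟩

@[fun_prop] theorem mul {f g : α → ℕ} (hf : PF f) (hg : PF g) : PF (fun a => f a * g a) := by
  obtain ⟨F, hF, sF⟩ := hf
  obtain ⟨G, hG, sG⟩ := hg
  exact ⟨fun x => List.replicate ((F x).length * (G x).length) true, hF.mulU hG,
    fun a => by simp [sF, sG, enc_nat]⟩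

@[fun_prop] theorem pow {f : α → ℕ} (hf : PF f) (k : ℕ) : PF (fun a => f a ^ k) := by
  induction k with
  | zero => exact (const 1).of_eq fun a => by simp
  | succ k ih => exact (mul ih hf).of_eq fun a => by rw [pow_succ]

theorem isZero {f : α → ℕ} (hf : PF f) : PF (fun a => f a == 0) := by
  obtain ⟨F, hF, sF⟩ := hf
  refine ⟨fun x => PT.sel (F x) [true] [false] [false],
    PT.sel' hF (PT.const _) (PT.const _) (PT.const _), fun a => ?_⟩
  beta_reduce
  rw [sF]
  rcases f a with _ | k
  · rfl
  · rfl

@[fun_prop] theorem ble {f g : α → ℕ} (hf : PF f) (hg : PF g) :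
    PF (fun a => Nat.ble (f a) (g a)) :=
  (isZero (sub hf hg)).of_eq fun a => by
    rw [Bool.eq_iff_iff]; simp [Nat.sub_eq_zero_iff_le]

@[fun_prop] theorem blt {f g : α → ℕ} (hf : PF f) (hg : PF g) :
    PF (fun a => Nat.blt (f a) (g a)) :=
  (ble (add hf (const 1)) hg).of_eq fun _ => rfl

@[fun_prop] theorem beq {f g : α → ℕ} (hf : PF f) (hg : PF g) : PF (fun a => f a == g a) :=
  (and' (ble hf hg) (ble hg hf)).of_eq fun a => by
    rw [Bool.eq_iff_iff]; simp; omega

theorem decide_le {f g : α → ℕ} (hf : PF f) (hg : PF g) : PF (fun a => decide (f a ≤ g a)) :=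
  (ble hf hg).of_eq fun a => by rw [Bool.eq_iff_iff]; simp

theorem decide_lt {f g : α → ℕ} (hf : PF f) (hg : PF g) : PF (fun a => decide (f a < g a)) :=
  (blt hf hg).of_eq fun a => by rw [Bool.eq_iff_iff]; simp [Nat.blt_eq]

theorem decide_eq {f g : α → ℕ} (hf : PF f) (hg : PF g) : PF (fun a => decide (f a = g a)) :=
  (beq hf hg).of_eq fun a => by rw [Bool.eq_iff_iff]; simp

@[fun_prop] theorem min' {f g : α → ℕ} (hf : PF f) (hg : PF g) : PF (fun a => min (f a) (g a)) :=
  (sub hf (sub hf hg)).of_eq fun a => by omega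

@[fun_prop] theorem max' {f g : α → ℕ} (hf : PF f) (hg : PF g) : PF (fun a => max (f a) (g a)) :=
  (add hg (sub hf hg)).of_eq fun a => by omega

/-! Bounded iteration -/

/-- Iterating a step a (unary) number of times, when all intermediate values are small. -/
theorem iterate {k : α → ℕ} {i : α → β} {st : α → β → β} (hk : PF k) (hi : PF i)
    (hs : PF (fun p : α × β => st p.1 p.2))
    (hb : ∃ q : Polynomial ℕ, ∀ a j, j ≤ k a →
      (enc ((st a)^[j] (i a))).length ≤ q.eval (enc a).length) :
    PF (fun a => (st a)^[k a] (i a)) := by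
  obtain ⟨K, hK, sK⟩ := hk
  obtain ⟨I, hI, sI⟩ := hi
  obtain ⟨S, hS, sS⟩ := hs
  obtain ⟨q, hq⟩ := hb
  have hstep : PT 2 (fun w => (S (encPair (w 1) (w 0))).take
      (List.replicate (q.eval (w 1).length) true).length) :=
    PT.take ((PT.var 1).polyU q) (PT.app1 hS (PT.pair_pt (PT.var 1) (PT.var 0)))
  obtain ⟨pi, hpi⟩ := hI.size
  have hf := PT.foldl hK hI hstep hstep ⟨pi + q, fun v N hv j => by
    have h0 := hpi v N hv
    have h1 := eval_mono q (hv 0)
    rcases List.eq_nil_or_concat ((K (v 0)).take j) with h | ⟨l, y, h⟩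
    · rw [h]; simp; omega
    · rw [h, List.concat_eq_append, List.foldl_append]
      cases y <;> simp [PT.stepF] <;> omega⟩
  refine ⟨fun x => (K x).foldl (fun acc _ => (S (encPair x acc)).take (q.eval x.length)) (I x),
    hf.of_eq fun v => ?_, fun a => ?_⟩
  · congr 1
    funext acc y
    cases y <;> simp [PT.stepF]
  · dsimp only
    rw [sK, sI, enc_nat]
    have : ∀ j, j ≤ k a → (List.replicate j true).foldl
        (fun acc _ => (S (encPair (enc a) acc)).take (q.eval (enc a).length)) (enc (i a)) =
        enc ((st a)^[j] (i a)) := by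
      intro j
      induction j with
      | zero => simp
      | succ j ih =>
        intro hj
        rw [List.replicate_succ', List.foldl_append, ih (by omega), List.foldl_cons,
          List.foldl_nil, ← enc_prod, sS, iterate_succ_apply']
        have := hq a (j + 1) hj
        rw [iterate_succ_apply'] at this
        exact List.take_of_length_le this
    exact this _ le_rfl

theorem divMod {f g : α → ℕ} (hf : PF f) (hg : PF g) : PF (fun a => (f a / g a, f a % g a)) := by
  have key : ∀ x y j : ℕ, (fun s : ℕ × ℕ =>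
      cond (Nat.blt 0 y && Nat.ble y s.2) (s.1 + 1, s.2 - y) s)^[j] (0, x) =
      (min j (x / y), x - min j (x / y) * y) := by
    intro x y j
    induction j with
    | zero => simp
    | succ j ih =>
      rw [iterate_succ_apply', ih]
      rcases Nat.eq_zero_or_pos y with hy | hy
      · subst hy; simp [Nat.blt, Nat.ble]
      have h1 := Nat.div_add_mod x y
      have h2 := Nat.mod_lt x hy
      rcases lt_or_ge j (x / y) with h | h
      · have h3 : (j + 1) * y ≤ x := le_trans (Nat.mul_le_mul_right y h) (Nat.div_mul_le_self x y)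
        have h4 : y ≤ x - j * y := by rw [Nat.add_mul] at h3; omega
        rw [min_eq_left h.le, min_eq_left h]
        have e : (Nat.blt 0 y && Nat.ble y (x - j * y)) = true := by simp [Nat.blt_eq, hy, h4]
        rw [e]
        simp [Nat.add_mul, Nat.sub_sub]
      · rw [min_eq_right h, min_eq_right (by omega)]
        have h4 : ¬ y ≤ x - x / y * y := by rw [Nat.mul_comm] at h1; omega
        have e : (Nat.blt 0 y && Nat.ble y (x - x / y * y)) = false := by
          rw [Bool.eq_false_iff]; simp; omega
        rw [e]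
        rfl
  have h := iterate (k := f) (i := fun a => ((0 : ℕ), f a))
    (st := fun a (s : ℕ × ℕ) => cond (Nat.blt 0 (g a) && Nat.ble (g a) s.2)
      (s.1 + 1, s.2 - g a) s) hf (by fun_prop) (by fun_prop) (by
      obtain ⟨p, hp⟩ := hf.size
      refine ⟨3 * p + 1, fun a j hj => ?_⟩
      have := hp a _ le_rfl
      rw [key]
      simp only [len_prod, len_nat, eval_add, eval_mul, eval_ofNat, eval_one] at this ⊢
      omega)
  refine h.of_eq fun a => ?_
  rw [key, min_eq_right (Nat.div_le_self _ _), Nat.mod_def, Nat.mul_comm]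

@[fun_prop] theorem div {f g : α → ℕ} (hf : PF f) (hg : PF g) : PF (fun a => f a / g a) :=
  (divMod hf hg).fst

@[fun_prop] theorem mod {f g : α → ℕ} (hf : PF f) (hg : PF g) : PF (fun a => f a % g a) :=
  (divMod hf hg).snd

/-! Lists -/

@[fun_prop] theorem cons {f : α → β} {l : α → List β} (hf : PF f) (hl : PF l) :
    PF (fun a => f a :: l a) := by
  obtain ⟨F, hF, sF⟩ := hf
  obtain ⟨G, hG, sG⟩ := hl
  exact ⟨fun x => encPair (F x) (G x), PT.pair_pt hF hG, fun a => by
    beta_reduce; rw [sF, sG]; rfl⟩

@[fun_prop] theorem append {l m : α → List β} (hl : PF l) (hm : PF m) :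
    PF (fun a => l a ++ m a) := by
  obtain ⟨F, hF, sF⟩ := hl
  obtain ⟨G, hG, sG⟩ := hm
  exact ⟨fun x => F x ++ G x, hF.append hG, fun a => by
    beta_reduce; rw [sF, sG, enc_append]⟩

@[fun_prop] theorem tail {l : α → List β} (hl : PF l) : PF (fun a => (l a).tail) := by
  obtain ⟨F, hF, sF⟩ := hl
  refine ⟨fun x => PT.sel (F x) [] (PT.sndS (F x)) (PT.sndS (F x)),
    PT.sel' hF PT.nil (PT.sndS_pt hF) (PT.sndS_pt hF), fun a => ?_⟩
  beta_reduce
  rw [sF]
  rcases l a with _ | ⟨b, m⟩
  · rfl
  · rw [enc_cons, PT.sel_pair, PT.sndS_pair]; rfl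

@[fun_prop] theorem headD {l : α → List β} {d : α → β} (hl : PF l) (hd : PF d) :
    PF (fun a => (l a).headD (d a)) := by
  obtain ⟨F, hF, sF⟩ := hl
  obtain ⟨G, hG, sG⟩ := hd
  refine ⟨fun x => PT.sel (F x) (G x) (PT.fstS (F x)) (PT.fstS (F x)),
    PT.sel' hF hG (PT.fstS_pt hF) (PT.fstS_pt hF), fun a => ?_⟩
  beta_reduce
  rw [sF, sG]
  rcases l a with _ | ⟨b, m⟩
  · rfl
  · rw [enc_cons, PT.sel_pair, PT.fstS_pair]; rfl

@[fun_prop] theorem isEmpty {l : α → List β} (hl : PF l) : PF (fun a => (l a).isEmpty) := by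
  obtain ⟨F, hF, sF⟩ := hl
  refine ⟨fun x => PT.sel (F x) [true] [false] [false],
    PT.sel' hF (PT.const _) (PT.const _) (PT.const _), fun a => ?_⟩
  beta_reduce
  rw [sF]
  rcases l a with _ | ⟨b, m⟩
  · rfl
  · rw [enc_cons, PT.sel_pair]; rfl

@[fun_prop] theorem drop {k : α → ℕ} {l : α → List β} (hk : PF k) (hl : PF l) :
    PF (fun a => (l a).drop (k a)) := by
  have key : ∀ (m : List β) (j : ℕ), List.tail^[j] m = m.drop j := by
    intro m j
    induction j with
    | zero => rfl
    | succ j ih => rw [iterate_succ_apply', ih, List.tail_drop]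
  refine (iterate (st := fun _ m => List.tail m) hk hl (by fun_prop) ?_).of_eq fun a => key _ _
  obtain ⟨p, hp⟩ := hl.size
  refine ⟨p, fun a j _ => ?_⟩
  rw [key]
  exact (len_le_of_sublist (List.drop_sublist _ _)).trans (hp a _ le_rfl)

@[fun_prop] theorem getD {l : α → List β} {k : α → ℕ} {d : α → β} (hl : PF l) (hk : PF k)
    (hd : PF d) : PF (fun a => (l a).getD (k a) (d a)) :=
  (headD (drop hk hl) hd).of_eq fun a => by simp [List.getD_eq_getElem?_getD]

/-- Left fold over a list, when all intermediate values are small. -/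
theorem foldl {l : α → List γ} {i : α → β} {st : α → β → γ → β} (hl : PF l) (hi : PF i)
    (hs : PF (fun p : α × β × γ => st p.1 p.2.1 p.2.2))
    (hb : ∃ q : Polynomial ℕ, ∀ a j,
      (enc (((l a).take j).foldl (st a) (i a))).length ≤ q.eval (enc a).length) :
    PF (fun a => (l a).foldl (st a) (i a)) := by
  classical
  by_cases hne : Nonempty γ
  swap
  · refine hi.of_eq fun a => ?_
    rcases l a with _ | ⟨c, m⟩
    · rfl
    · exact absurd ⟨c⟩ hne
  obtain ⟨c0⟩ := hne
  have key : ∀ (a : α) (j : ℕ), (fun s : List γ × β =>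
      cond s.1.isEmpty s (s.1.tail, st a s.2 (s.1.headD c0)))^[j] (l a, i a) =
      ((l a).drop j, ((l a).take j).foldl (st a) (i a)) := by
    intro a j
    induction j with
    | zero => rfl
    | succ j ih =>
      rw [iterate_succ_apply', ih]
      rcases lt_or_ge j (l a).length with h | h
      · rw [List.take_succ_eq_append_getElem h, List.foldl_append,
          List.drop_eq_getElem_cons h]
        rfl
      · rw [List.drop_of_length_le h, List.drop_of_length_le (by omega),
          List.take_of_length_le h, List.take_of_length_le (by omega)]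
        rfl
  have hs' : PF (fun p : α × List γ × β => st p.1 p.2.2 (p.2.1.headD c0)) :=
    hs.comp (g := fun p : α × List γ × β => (p.1, p.2.2, p.2.1.headD c0)) (by fun_prop)
  have h := iterate (k := fun a => (enc (l a)).length) (i := fun a => (l a, i a))
    (st := fun a (s : List γ × β) =>
      cond s.1.isEmpty s (s.1.tail, st a s.2 (s.1.headD c0))) hl.encLen (by fun_prop)
    (cond' (by fun_prop) (by fun_prop) (pair (by fun_prop) hs')) (by
      obtain ⟨q, hq⟩ := hb
      obtain ⟨p, hp⟩ := hl.size
      refine ⟨2 * p + q + 1, fun a j _ => ?_⟩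
      rw [key]
      have h1 := (len_le_of_sublist (List.drop_sublist j (l a))).trans (hp a _ le_rfl)
      have h2 := hq a j
      simp only [len_prod, eval_add, eval_mul, eval_ofNat, eval_one]
      omega)
  refine h.snd.of_eq fun a => ?_
  rw [key, List.take_of_length_le (length_le_len _)]

/-- Left fold whose step lengthens the accumulator by a polynomially bounded amount. -/
theorem foldl_add {l : α → List γ} {i : α → β} {st : α → β → γ → β} (hl : PF l) (hi : PF i)
    (hs : PF (fun p : α × β × γ => st p.1 p.2.1 p.2.2))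
    (hb : ∃ r : Polynomial ℕ, ∀ a b, ∀ c ∈ l a,
      (enc (st a b c)).length ≤ (enc b).length + r.eval (enc a).length) :
    PF (fun a => (l a).foldl (st a) (i a)) := by
  obtain ⟨r, hr⟩ := hb
  obtain ⟨pl, hpl⟩ := hl.size
  obtain ⟨pi, hpi⟩ := hi.size
  refine foldl hl hi hs ⟨pi + pl * r, fun a j => ?_⟩
  have key : ∀ (m : List γ) (b : β), (∀ c ∈ m, c ∈ l a) → (enc (m.foldl (st a) b)).length ≤
      (enc b).length + m.length * r.eval (enc a).length := by
    intro m
    induction m with
    | nil => simp
    | cons c m ih =>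
      intro b hm
      have h1 := ih (st a b c) fun c hc => hm c (by simp [hc])
      have h2 := hr a b c (hm c (by simp))
      simp only [List.foldl_cons, List.length_cons]
      rw [Nat.add_mul]
      omega
  have h1 := key ((l a).take j) (i a) fun c hc => List.mem_of_mem_take hc
  have h2 := hpi a _ le_rfl
  have h3 : ((l a).take j).length ≤ pl.eval (enc a).length :=
    le_trans (by simp) ((length_le_len _).trans (hpl a _ le_rfl))
  have h4 := Nat.mul_le_mul_right (r.eval (enc a).length) h3
  simp only [eval_add, eval_mul]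
  omega

theorem size2 {l : α → List γ} {f : α → γ → β} (hl : PF l)
    (hf : PF (fun p : α × γ => f p.1 p.2)) :
    ∃ r : Polynomial ℕ, ∀ a, ∀ c ∈ l a, (enc (f a c)).length ≤ r.eval (enc a).length := by
  obtain ⟨pl, hpl⟩ := hl.size
  obtain ⟨pf, hpf⟩ := hf.size
  refine ⟨pf.comp (2 * X + pl + 1), fun a c hc => ?_⟩
  have h1 := (len_le_of_mem hc).trans (hpl a _ le_rfl)
  have := hpf (a, c) (2 * (enc a).length + pl.eval (enc a).length + 1) (by simp; omega)
  simpa [eval_comp] using this

@[fun_prop] theorem flatMap {l : α → List γ} {f : α → γ → List β} (hl : PF l)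
    (hf : PF (fun p : α × γ => f p.1 p.2)) : PF (fun a => (l a).flatMap (f a)) := by
  have hs : PF (fun p : α × List β × γ => p.2.1 ++ f p.1 p.2.2) :=
    append (by fun_prop) (hf.comp (g := fun p : α × List β × γ => (p.1, p.2.2)) (by fun_prop))
  refine (foldl_add (st := fun a b c => b ++ f a c) hl (const []) hs ?_).of_eq fun a => ?_
  · obtain ⟨r, hr⟩ := size2 hl hf
    exact ⟨r, fun a b c hc => by have := hr a c hc; simp; omega⟩
  · have : ∀ (m : List γ) (b : List β), m.foldl (fun b c => b ++ f a c) b =
        b ++ m.flatMap (f a) := by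
      intro m
      induction m with
      | nil => simp
      | cons c m ih => intro b; simp [ih]
    simpa using this (l a) []

@[fun_prop] theorem map {l : α → List γ} {f : α → γ → β} (hl : PF l)
    (hf : PF (fun p : α × γ => f p.1 p.2)) : PF (fun a => (l a).map (f a)) :=
  (flatMap (f := fun a c => [f a c]) hl (cons hf (const []))).of_eq fun a => by
    rw [List.map_eq_flatMap]

@[fun_prop] theorem filter {l : α → List γ} {f : α → γ → Bool} (hl : PF l)
    (hf : PF (fun p : α × γ => f p.1 p.2)) : PF (fun a => (l a).filter (f a)) :=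
  (flatMap (f := fun a c => cond (f a c) [c] []) hl
    (cond' hf (by fun_prop) (const []))).of_eq fun a => by
    induction l a with
    | nil => rfl
    | cons c m ih => cases h : f a c <;> simp [h, ih]

@[fun_prop] theorem any {l : α → List γ} {f : α → γ → Bool} (hl : PF l)
    (hf : PF (fun p : α × γ => f p.1 p.2)) : PF (fun a => (l a).any (f a)) :=
  (filter hl hf).isEmpty.not'.of_eq fun a => by
    rw [Bool.eq_iff_iff]; simp

@[fun_prop] theorem all {l : α → List γ} {f : α → γ → Bool} (hl : PF l)
    (hf : PF (fun p : α × γ => f p.1 p.2)) : PF (fun a => (l a).all (f a)) :=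
  (any (f := fun a c => !(f a c)) hl hf.not').not'.of_eq fun a => by
    rw [Bool.eq_iff_iff]; simp

@[fun_prop] theorem sum {l : α → List ℕ} (hl : PF l) : PF (fun a => (l a).sum) := by
  refine (foldl_add (st := fun _ b c => b + c) hl (const 0) (by fun_prop) ?_).of_eq fun a => ?_
  · obtain ⟨p, hp⟩ := hl.size
    refine ⟨p, fun a b c hc => ?_⟩
    have := (len_le_of_mem hc).trans (hp a _ le_rfl)
    simp at this ⊢; omega
  · rw [List.sum_eq_foldl]

@[fun_prop] theorem length {l : α → List β} (hl : PF l) : PF (fun a => (l a).length) :=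
  (sum (map (f := fun _ _ => 1) hl (const 1))).of_eq fun a => by simp

@[fun_prop] theorem reverse {l : α → List β} (hl : PF l) : PF (fun a => (l a).reverse) := by
  refine (foldl_add (st := fun _ b c => c :: b) hl (const []) (by fun_prop) ?_).of_eq fun a => ?_
  · obtain ⟨p, hp⟩ := hl.size
    refine ⟨2 * p + 1, fun a b c hc => ?_⟩
    have := (len_le_of_mem hc).trans (hp a _ le_rfl)
    simp at this ⊢; omega
  · simp

@[fun_prop] theorem take {k : α → ℕ} {l : α → List β} (hk : PF k) (hl : PF l) :
    PF (fun a => (l a).take (k a)) := by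
  refine (drop (sub hl.length hk) hl.reverse).reverse.of_eq fun a => ?_
  rw [List.drop_reverse, List.reverse_reverse]
  rcases le_total (k a) (l a).length with h | h
  · congr 1; omega
  · rw [List.take_of_length_le h, List.take_of_length_le (by omega)]

@[fun_prop] theorem range {k : α → ℕ} (hk : PF k) : PF (fun a => List.range (k a)) := by
  have key : ∀ j : ℕ, (fun m : List ℕ => m ++ [m.length])^[j] [] = List.range j := by
    intro j
    induction j with
    | zero => rfl
    | succ j ih => rw [iterate_succ_apply', ih, List.range_succ, List.length_range]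
  refine (iterate (st := fun _ (m : List ℕ) => m ++ [m.length]) hk (const []) (by fun_prop)
    ?_).of_eq fun a => key _
  obtain ⟨p, hp⟩ := hk.size
  refine ⟨p * (2 * p + 1), fun a j hj => ?_⟩
  rw [key]
  have h1 := hp a _ le_rfl
  rw [len_nat] at h1
  have h2 := len_le_mul (List.range j) (p.eval (enc a).length) fun b hb => by
    have := List.mem_range.1 hb
    simp; omega
  rw [List.length_range] at h2
  have h3 := Nat.mul_le_mul_right (2 * p.eval (enc a).length + 1) (hj.trans h1)
  simp only [eval_add, eval_mul, eval_ofNat, eval_one]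
  omega

@[fun_prop] theorem replicate {k : α → ℕ} {f : α → β} (hk : PF k) (hf : PF f) :
    PF (fun a => List.replicate (k a) (f a)) :=
  (map (f := fun a _ => f a) hk.range (hf.comp (by fun_prop))).of_eq fun a => by simp

@[fun_prop] theorem flatten {l : α → List (List β)} (hl : PF l) : PF (fun a => (l a).flatten) :=
  (flatMap (f := fun _ c => c) hl (by fun_prop)).of_eq fun a => by simp

@[fun_prop] theorem countP {l : α → List γ} {f : α → γ → Bool} (hl : PF l)
    (hf : PF (fun p : α × γ => f p.1 p.2)) : PF (fun a => (l a).countP (f a)) :=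
  (filter hl hf).length.of_eq fun a => by rw [List.countP_eq_length_filter]

@[fun_prop] theorem contains {l : α → List ℕ} {f : α → ℕ} (hl : PF l) (hf : PF f) :
    PF (fun a => (l a).contains (f a)) :=
  (any (f := fun a c => f a == c) hl (beq (hf.comp (by fun_prop)) (by fun_prop))).of_eq
    fun a => by rw [List.contains_eq_any_beq]

end PF

end Pool.Agent.Shared.PolyTime
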