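import Mathlib
import Pool.Agent.Shared.NP.CookLevin

/-!
Natural numbers in binary. `PB f` says that `f : α → ℕ` is computed at polynomial cost with the
value written in binary (`Nat.bits`). Closed under `+`, `-`, `*`, `/`, `%`, powers with a unary
exponent and `cond`; comparisons `bble`, `bblt` and `Nat.size` lead back to `PF`.
-/

set_option autoImplicit false

namespace Pool.Agent.Shared.PolyTime

open Function Polynomial Enc Pool.Agent.Shared.NP

/-- A natural number encoded in binary. -/
structure Big : Type where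
  /-- the value -/
  val : ℕ

instance encBig : Enc Big := ⟨fun b => Nat.bits b.val⟩

theorem enc_big (n : ℕ) : enc (⟨n⟩ : Big) = Nat.bits n := rfl

@[simp] theorem len_big (n : ℕ) : (enc (⟨n⟩ : Big)).length = Nat.size n := Nat.size_eq_bits_len n

/-- `f` is computed at polynomial cost, the value being written in binary. -/
@[fun_prop]
def PB {α : Type} [Enc α] (f : α → ℕ) : Prop := PF (fun a => (⟨f a⟩ : Big))

/-- The value of a little-endian list of bits. -/
def bv (l : List Bool) : ℕ := l.foldr Nat.bit 0

@[simp] theorem bv_nil : bv [] = 0 := rfl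

theorem bv_cons (b : Bool) (l : List Bool) : bv (b :: l) = 2 * bv l + b.toNat := by
  simp [bv, Nat.bit_val]

theorem bv_bits (n : ℕ) : bv (Nat.bits n) = n := by
  induction n using Nat.binaryRec' with
  | zero => simp
  | bit b n h ih => rw [Nat.bits_append_bit n b h]; simp only [bv, List.foldr_cons] at ih ⊢; rw [ih]

theorem bv_concat (l : List Bool) (b : Bool) : bv (l ++ [b]) = bv l + 2 ^ l.length * b.toNat := by
  induction l with
  | nil => simp [bv_cons]
  | cons c l ih => rw [List.cons_append, bv_cons, bv_cons, ih, List.length_cons, pow_succ]; ring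

theorem bv_lt (l : List Bool) : bv l < 2 ^ l.length := by
  induction l with
  | nil => simp
  | cons c l ih => rw [bv_cons, List.length_cons, pow_succ]; cases c <;> simp <;> omega

theorem bv_pad (l : List Bool) : ∀ N, l.length ≤ N →
    bv ((List.range N).map fun i => l.getD i false) = bv l := by
  induction l with
  | nil =>
    intro N _
    induction N with
    | zero => rfl
    | succ N ih => rw [List.range_succ, List.map_append, List.map_singleton, bv_concat,
        ih (Nat.zero_le _)]; simp
  | cons c l ih =>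
    intro N hN
    obtain ⟨N, rfl⟩ : ∃ M, N = M + 1 := ⟨N - 1, by simp at hN; omega⟩
    rw [List.range_succ_eq_map, List.map_cons, List.map_map, bv_cons, bv_cons,
      ← ih N (by simpa using hN)]
    rfl

theorem bv_not (l : List Bool) : bv (l.map not) + bv l + 1 = 2 ^ l.length := by
  induction l with
  | nil => rfl
  | cons c l ih =>
    rw [List.map_cons, bv_cons, bv_cons, List.length_cons, pow_succ]
    cases c <;> simp <;> omega

section
variable {α β γ : Type} [Enc α] [Enc β] [Enc γ]

/-- The encoding of a value, as a typed list of bits. -/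
theorem PF.encL {f : α → β} (hf : PF f) : PF (fun a => (enc (f a) : List Bool)) := by
  have h : PF (fun b : β => (⟨enc b⟩ : Raw)) := ⟨fun x => x, PT.var 0, fun _ => rfl⟩
  exact (PF_bits h).comp hf

/-- A typed list of bits as a raw string. -/
theorem PF.toRaw {l : α → List Bool} (hl : PF l) : PF (fun a => (⟨l a⟩ : Raw)) := by
  have h1 : PF (fun p : Raw × Bool => (⟨p.1.bits ++ [p.2]⟩ : Raw)) :=
    ⟨fun x => PT.fstS x ++ PT.sndS x, (PT.fstS_pt (PT.var 0)).append (PT.sndS_pt (PT.var 0)),
      fun p => by
        have e : enc p = encPair p.1.bits [p.2] := rfl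
        beta_reduce
        rw [e, PT.fstS_pair, PT.sndS_pair]; rfl⟩
  have h2 := PF.foldl_add (st := fun (_ : α) (r : Raw) (b : Bool) => (⟨r.bits ++ [b]⟩ : Raw)) hl
    (PF.const (⟨[]⟩ : Raw))
    (h1.comp (g := fun p : α × Raw × Bool => (p.2.1, p.2.2)) (by fun_prop))
    ⟨1, fun a b c _ => by
      show (b.bits ++ [c]).length ≤ b.bits.length + _
      simp⟩
  refine h2.of_eq fun a => ?_
  have key : ∀ (m acc : List Bool), m.foldl (fun (r : Raw) (b : Bool) => (⟨r.bits ++ [b]⟩ : Raw))
      ⟨acc⟩ = ⟨acc ++ m⟩ := by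
    intro m
    induction m with
    | nil => simp
    | cons b m ih => intro acc; simp [ih]
  simpa using key (l a) []

namespace PB

theorem of_eq {f g : α → ℕ} (h : PB f) (e : ∀ a, f a = g a) : PB g := by
  have : f = g := funext e
  exact this ▸ h

@[fun_prop] theorem const (n : ℕ) : PB (fun _ : α => n) := PF.const _

@[fun_prop] theorem comp {f : β → ℕ} {g : α → β} (hf : PB f) (hg : PF g) :
    PB (fun a => f (g a)) := PF.comp (f := fun b => (⟨f b⟩ : Big)) hf hg

/-- The binary digits as a typed list. -/
@[fun_prop] theorem bits {f : α → ℕ} (hf : PB f) : PF (fun a => Nat.bits (f a)) := PF.encL hf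

@[fun_prop] theorem size {f : α → ℕ} (hf : PB f) : PF (fun a => Nat.size (f a)) :=
  (PF.encLen hf).of_eq fun _ => len_big _

@[fun_prop] theorem val {f : α → Big} (hf : PF f) : PB (fun a => (f a).val) := hf

@[fun_prop] theorem mk {f : α → ℕ} (hf : PB f) : PF (fun a => (⟨f a⟩ : Big)) := hf

theorem bound {f : α → ℕ} (hf : PB f) :
    ∃ p : Polynomial ℕ, ∀ a, Nat.size (f a) ≤ p.eval (enc a).length := by
  obtain ⟨p, hp⟩ := PF.size hf
  exact ⟨p, fun a => by simpa using hp a _ le_rfl⟩

@[fun_prop] theorem ofBits {l : α → List Bool} (hl : PF l) : PB (fun a => bv (l a)) := by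
  have h1 := PF.foldl_add (st := fun (_ : α) (acc : List Bool) (b : Bool) =>
    cond (acc.isEmpty && !b) [] (b :: acc)) hl.reverse (PF.const []) (by fun_prop)
    ⟨3, fun a acc c _ => by cases h : (acc.isEmpty && !c) <;> simp; omega⟩
  have key : ∀ m : List Bool, m.reverse.foldl (fun (acc : List Bool) (b : Bool) =>
      cond (acc.isEmpty && !b) [] (b :: acc)) [] = Nat.bits (bv m) := by
    intro m
    rw [List.foldl_reverse]
    induction m with
    | nil => simp
    | cons b m ih =>
      rw [List.foldr_cons, ih]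
      have e : bv (b :: m) = Nat.bit b (bv m) := rfl
      rw [e]
      by_cases h : bv m = 0 → b = true
      · rw [Nat.bits_append_bit _ _ h]
        by_cases h0 : bv m = 0
        · simp [h h0]
        · have : (Nat.bits (bv m)).isEmpty = false := by
            rw [List.isEmpty_eq_false_iff]
            intro e
            have := bv_bits (bv m)
            rw [e] at this
            exact h0 this.symm
          simp [this]
      · simp only [Classical.not_imp, Bool.not_eq_true] at h
        simp [h.1, h.2]
  obtain ⟨F, hF, sF⟩ := PF.toRaw (h1.of_eq fun a => key (l a))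
  exact ⟨F, hF, sF⟩

@[fun_prop] theorem cond' {c : α → Bool} {f g : α → ℕ} (hc : PF c) (hf : PB f) (hg : PB g) :
    PB (fun a => cond (c a) (f a) (g a)) :=
  (PF.cond' hc hf hg).of_eq fun a => by beta_reduce; cases c a <;> rfl

end PB

/-- One step of the addition with carry. -/
def addStep (s : Bool × List Bool) (p : Bool × Bool) : Bool × List Bool :=
  ((p.1 && p.2) || (s.1 && (p.1 || p.2)), s.2 ++ [(p.1 == p.2) == s.1])

theorem addStep_spec (ps : List (Bool × Bool)) : ∀ s : Bool × List Bool,
    (ps.foldl addStep s).2.length = s.2.length + ps.length ∧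
    bv (ps.foldl addStep s).2 + 2 ^ (s.2.length + ps.length) * (ps.foldl addStep s).1.toNat =
      bv s.2 + 2 ^ s.2.length * (s.1.toNat + bv (ps.map Prod.fst) + bv (ps.map Prod.snd)) := by
  induction ps with
  | nil => intro s; simp
  | cons p ps ih =>
    intro s
    obtain ⟨h1, h2⟩ := ih (addStep s p)
    have e : (addStep s p).2.length = s.2.length + 1 := by simp [addStep]
    rw [e] at h1 h2
    refine ⟨by simp only [List.foldl_cons, List.length_cons]; omega, ?_⟩
    rw [List.foldl_cons, List.length_cons, show s.2.length + (ps.length + 1) =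
      s.2.length + 1 + ps.length by omega, h2, List.map_cons, List.map_cons, bv_cons, bv_cons]
    rcases s with ⟨c, l⟩
    rcases p with ⟨x, y⟩
    simp only [addStep, bv_concat, pow_succ]
    cases c <;> cases x <;> cases y <;> simp <;> ring

theorem addRun_pf {c : α → Bool} {ps : α → List (Bool × Bool)} (hc : PF c) (hps : PF ps) :
    PF (fun a => (ps a).foldl addStep (c a, [])) := by
  refine PF.foldl_add (st := fun _ => addStep) hps (by fun_prop) (by unfold addStep; fun_prop)
    ⟨3, fun a s p _ => ?_⟩
  rcases s with ⟨c, l⟩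
  simp [addStep]
  omega

/-- Comparison of numbers in binary. -/
def bble (x y : ℕ) : Bool := Nat.ble x y

/-- Strict comparison of numbers in binary. -/
def bblt (x y : ℕ) : Bool := !bble y x

@[simp] theorem bble_eq (x y : ℕ) : bble x y = true ↔ x ≤ y := by simp [bble]

@[simp] theorem bblt_eq (x y : ℕ) : bblt x y = true ↔ x < y := by
  simp [bblt, ← Bool.not_eq_true]

namespace PB

@[fun_prop] theorem add {f g : α → ℕ} (hf : PB f) (hg : PB g) : PB (fun a => f a + g a) := by
  have h := addRun_pf (c := fun _ => false) (ps := fun a =>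
    (List.range (Nat.size (f a) + Nat.size (g a))).map fun i =>
      ((Nat.bits (f a)).getD i false, (Nat.bits (g a)).getD i false)) (PF.const _) (by fun_prop)
  refine (ofBits (PF.append h.snd (PF.cons h.fst (PF.const [])))).of_eq fun a => ?_
  obtain ⟨h1, h2⟩ := addStep_spec ((List.range (Nat.size (f a) + Nat.size (g a))).map fun i =>
      ((Nat.bits (f a)).getD i false, (Nat.bits (g a)).getD i false)) (false, [])
  rw [bv_concat, h1, h2, List.map_map, List.map_map]
  have e1 := bv_pad (Nat.bits (f a)) (Nat.size (f a) + Nat.size (g a))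
    (by rw [Nat.size_eq_bits_len]; omega)
  have e2 := bv_pad (Nat.bits (g a)) (Nat.size (f a) + Nat.size (g a))
    (by rw [Nat.size_eq_bits_len]; omega)
  rw [bv_bits] at e1 e2
  simp only [Function.comp_def]
  rw [e1, e2]
  simp

theorem subAux {f g : α → ℕ} (hf : PB f) (hg : PB g) :
    ∃ (c : α → Bool) (l : α → List Bool), PF c ∧ PF l ∧
      ∀ a, c a = bble (g a) (f a) ∧ (g a ≤ f a → bv (l a) = f a - g a) := by
  have h := addRun_pf (c := fun _ => true) (ps := fun a =>
    (List.range (Nat.size (f a) + Nat.size (g a))).map fun i =>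
      ((Nat.bits (f a)).getD i false, !(Nat.bits (g a)).getD i false)) (PF.const _) (by fun_prop)
  refine ⟨_, _, h.fst, h.snd, fun a => ?_⟩
  obtain ⟨h1, h2⟩ := addStep_spec ((List.range (Nat.size (f a) + Nat.size (g a))).map fun i =>
      ((Nat.bits (f a)).getD i false, !(Nat.bits (g a)).getD i false)) (true, [])
  have h3 := bv_lt (((List.range (Nat.size (f a) + Nat.size (g a))).map fun i =>
      ((Nat.bits (f a)).getD i false, !(Nat.bits (g a)).getD i false)).foldl addStep (true, [])).2
  rw [h1] at h3
  have e1 := bv_pad (Nat.bits (f a)) (Nat.size (f a) + Nat.size (g a))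
    (by rw [Nat.size_eq_bits_len]; omega)
  have e2 := bv_pad (Nat.bits (g a)) (Nat.size (f a) + Nat.size (g a))
    (by rw [Nat.size_eq_bits_len]; omega)
  have e3 := bv_not ((List.range (Nat.size (f a) + Nat.size (g a))).map fun i =>
    (Nat.bits (g a)).getD i false)
  rw [bv_bits] at e1 e2
  rw [e2, List.map_map] at e3
  rw [List.map_map, List.map_map] at h2
  simp only [Function.comp_def, List.length_nil, zero_add, List.length_map, List.length_range,
    bv_nil, pow_zero, one_mul, Bool.toNat_true] at h2 h3 e3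
  rw [e1] at h2
  generalize ((List.range (Nat.size (f a) + Nat.size (g a))).map fun i =>
      ((Nat.bits (f a)).getD i false, !(Nat.bits (g a)).getD i false)).foldl addStep (true, []) = r
    at h2 h3 ⊢
  rcases r with ⟨c, l⟩
  cases c
  · simp only [Bool.toNat_false, mul_zero, add_zero] at h2 h3 ⊢
    refine ⟨?_, fun h => by omega⟩
    symm
    rw [← Bool.not_eq_true, bble_eq]
    omega
  · simp only [Bool.toNat_true, mul_one] at h2 h3 ⊢
    refine ⟨?_, fun h => by omega⟩
    symm
    rw [bble_eq]
    omega

@[fun_prop] theorem ble {f g : α → ℕ} (hf : PB f) (hg : PB g) :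
    PF (fun a => bble (f a) (g a)) := by
  obtain ⟨c, l, hc, -, h⟩ := subAux hg hf
  exact hc.of_eq fun a => (h a).1

@[fun_prop] theorem blt {f g : α → ℕ} (hf : PB f) (hg : PB g) :
    PF (fun a => bblt (f a) (g a)) := (ble hg hf).not'

@[fun_prop] theorem sub {f g : α → ℕ} (hf : PB f) (hg : PB g) : PB (fun a => f a - g a) := by
  obtain ⟨c, l, hc, hl, h⟩ := subAux hf hg
  refine (cond' hc (ofBits hl) (const 0)).of_eq fun a => ?_
  obtain ⟨h1, h2⟩ := h a
  rw [h1]
  by_cases h3 : g a ≤ f a
  · rw [(bble_eq _ _).2 h3, cond_true, h2 h3]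
  · rw [Bool.eq_false_iff.2 (mt (bble_eq _ _).1 h3), cond_false]
    omega

end PB

theorem size_add_le (x y : ℕ) : Nat.size (x + y) ≤ Nat.size x + Nat.size y + 1 := by
  rw [Nat.size_le]
  have h1 := Nat.lt_size_self x
  have h2 := Nat.lt_size_self y
  have h3 : 2 ^ Nat.size x ≤ 2 ^ (Nat.size x + Nat.size y) := Nat.pow_le_pow_right (by omega) (by omega)
  have h4 : 2 ^ Nat.size y ≤ 2 ^ (Nat.size x + Nat.size y) := Nat.pow_le_pow_right (by omega) (by omega)
  rw [pow_succ]
  omega

theorem size_mul_le (x y : ℕ) : Nat.size (x * y) ≤ Nat.size x + Nat.size y := by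
  rw [Nat.size_le, pow_add]
  exact Nat.mul_lt_mul'' (Nat.lt_size_self x) (Nat.lt_size_self y)

theorem size_pow_le (x j : ℕ) : Nat.size (x ^ j) ≤ j * Nat.size x + 1 := by
  induction j with
  | zero => simp
  | succ j ih =>
    have := size_mul_le (x ^ j) x
    rw [pow_succ, Nat.add_mul]
    omega

theorem size_le_self (x : ℕ) : Nat.size x ≤ x := Nat.size_le.2 Nat.lt_two_pow_self

theorem size_double_add (x : ℕ) (b : Bool) : Nat.size (x + x + cond b 1 0) ≤ Nat.size x + 1 := by
  rw [Nat.size_le, pow_succ]
  have := Nat.lt_size_self x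
  cases b <;> simp <;> omega

namespace PB

@[fun_prop] theorem mul {f g : α → ℕ} (hf : PB f) (hg : PB g) : PB (fun a => f a * g a) := by
  have h := PF.foldl_add (st := fun (a : α) (acc : Big) (b : Bool) =>
    (⟨acc.val + acc.val + cond b (g a) 0⟩ : Big)) hf.bits.reverse (PF.const (⟨0⟩ : Big))
    (by fun_prop) (by
      obtain ⟨p, hp⟩ := hg.bound
      refine ⟨p + 2, fun a acc b _ => ?_⟩
      rcases acc with ⟨x⟩
      have h1 := hp a
      have h2 := size_add_le (x + x) (cond b (g a) 0)
      have h3 := size_double_add x false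
      have h4 : Nat.size (cond b (g a) 0) ≤ Nat.size (g a) := by cases b <;> simp
      simp only [len_big, eval_add, eval_ofNat, cond_false, add_zero] at h3 ⊢
      omega)
  refine PF.of_eq h fun a => ?_
  have key : ∀ m : List Bool, m.reverse.foldl (fun (acc : Big) (b : Bool) =>
      (⟨acc.val + acc.val + cond b (g a) 0⟩ : Big)) ⟨0⟩ = ⟨bv m * g a⟩ := by
    intro m
    rw [List.foldl_reverse]
    induction m with
    | nil => simp
    | cons b m ih =>
      rw [List.foldr_cons, ih, bv_cons]
      congr 1
      cases b <;> simp <;> ring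
  rw [key, bv_bits]

@[fun_prop] theorem pow {f k : α → ℕ} (hf : PB f) (hk : PF k) : PB (fun a => f a ^ k a) := by
  have key : ∀ (x j : ℕ), (fun acc : Big => (⟨acc.val * x⟩ : Big))^[j] ⟨1⟩ = ⟨x ^ j⟩ := by
    intro x j
    induction j with
    | zero => rfl
    | succ j ih => rw [iterate_succ_apply', ih, pow_succ]
  have h := PF.iterate (st := fun (a : α) (acc : Big) => (⟨acc.val * f a⟩ : Big)) hk
    (PF.const (⟨1⟩ : Big)) (by fun_prop) (by
      obtain ⟨p, hp⟩ := hf.bound
      obtain ⟨q, hq⟩ := hk.size
      refine ⟨q * p + 1, fun a j hj => ?_⟩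
      rw [key]
      have h1 := hq a _ le_rfl
      rw [len_nat] at h1
      have h2 := size_pow_le (f a) j
      have h3 := Nat.mul_le_mul (hj.trans h1) (hp a)
      simp only [len_big, eval_add, eval_mul, eval_one]
      omega)
  exact PF.of_eq h fun a => key _ _

/-- From unary to binary. -/
@[fun_prop] theorem ofPF {f : α → ℕ} (hf : PF f) : PB f := by
  have key : ∀ j : ℕ, (fun acc : Big => (⟨acc.val + 1⟩ : Big))^[j] ⟨0⟩ = ⟨j⟩ := by
    intro j
    induction j with
    | zero => rfl
    | succ j ih => rw [iterate_succ_apply', ih]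
  have h := PF.iterate (st := fun (_ : α) (acc : Big) => (⟨acc.val + 1⟩ : Big)) hf
    (PF.const (⟨0⟩ : Big)) (by fun_prop) (by
      obtain ⟨q, hq⟩ := hf.size
      refine ⟨q, fun a j hj => ?_⟩
      rw [key]
      have h1 := hq a _ le_rfl
      rw [len_nat] at h1
      have h2 := size_le_self j
      simp only [len_big]
      omega)
  exact PF.of_eq h fun a => key _

theorem divMod {f g : α → ℕ} (hf : PB f) (hg : PB g) :
    PF (fun a => ((⟨f a / g a⟩ : Big), (⟨f a % g a⟩ : Big))) := by
  have h := PF.foldl_add (st := fun (a : α) (s : Big × Big) (b : Bool) =>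
    cond (bblt 0 (g a) && bble (g a) (s.2.val + s.2.val + cond b 1 0))
      ((⟨s.1.val + s.1.val + 1⟩ : Big), (⟨s.2.val + s.2.val + cond b 1 0 - g a⟩ : Big))
      ((⟨s.1.val + s.1.val⟩ : Big), (⟨s.2.val + s.2.val + cond b 1 0⟩ : Big)))
    hf.bits.reverse (PF.const ((⟨0⟩ : Big), (⟨0⟩ : Big))) (by fun_prop) (by
      refine ⟨3, fun a s b _ => ?_⟩
      rcases s with ⟨⟨x⟩, ⟨y⟩⟩
      have h1 := size_double_add x true
      have h2 := size_double_add x false
      have h3 := size_double_add y b
      have h4 : Nat.size (y + y + cond b 1 0 - g a) ≤ Nat.size (y + y + cond b 1 0) :=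
        Nat.size_le_size (Nat.sub_le _ _)
      simp only [cond_true, cond_false, add_zero] at h1 h2
      cases (bblt 0 (g a) && bble (g a) (y + y + cond b 1 0)) <;>
        simp only [cond_true, cond_false, len_prod, len_big, eval_ofNat] <;> omega)
  refine PF.of_eq h fun a => ?_
  have key : ∀ m : List Bool, m.reverse.foldl (fun (s : Big × Big) (b : Bool) =>
      cond (bblt 0 (g a) && bble (g a) (s.2.val + s.2.val + cond b 1 0))
      ((⟨s.1.val + s.1.val + 1⟩ : Big), (⟨s.2.val + s.2.val + cond b 1 0 - g a⟩ : Big))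
      ((⟨s.1.val + s.1.val⟩ : Big), (⟨s.2.val + s.2.val + cond b 1 0⟩ : Big))) (⟨0⟩, ⟨0⟩) =
      (⟨bv m / g a⟩, ⟨bv m % g a⟩) := by
    intro m
    rw [List.foldl_reverse]
    induction m with
    | nil => simp
    | cons b m ih =>
      rw [List.foldr_cons, ih, bv_cons]
      have eb : (cond b 1 0 : ℕ) = b.toNat := by cases b <;> rfl
      have hb : b.toNat ≤ 1 := by cases b <;> simp
      rw [eb]
      generalize b.toNat = c at hb
      generalize bv m = x
      generalize g a = y
      rcases Nat.eq_zero_or_pos y with hy | hy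
      · subst hy
        have : bblt 0 0 = false := rfl
        simp [this, two_mul]
      have h1 := Nat.div_add_mod x y
      have h2 := Nat.mod_lt x hy
      rw [(bblt_eq _ _).2 hy, Bool.true_and]
      by_cases h3 : y ≤ x % y + x % y + c
      · rw [(bble_eq _ _).2 h3, cond_true]
        have := (Nat.div_mod_unique (a := 2 * x + c) (d := x / y + x / y + 1)
          (c := x % y + x % y + c - y) hy).2 ⟨by rw [Nat.mul_add, Nat.mul_add]; omega, by omega⟩
        rw [this.1, this.2]
      · rw [Bool.eq_false_iff.2 (mt (bble_eq _ _).1 h3), cond_false]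
        have := (Nat.div_mod_unique (a := 2 * x + c) (d := x / y + x / y)
          (c := x % y + x % y + c) hy).2 ⟨by rw [Nat.mul_add]; omega, by omega⟩
        rw [this.1, this.2]
  rw [key, bv_bits]

@[fun_prop] theorem div {f g : α → ℕ} (hf : PB f) (hg : PB g) : PB (fun a => f a / g a) :=
  (divMod hf hg).fst

@[fun_prop] theorem mod {f g : α → ℕ} (hf : PB f) (hg : PB g) : PB (fun a => f a % g a) :=
  (divMod hf hg).snd

/-- Bridge to Mathlib for outputs in binary. -/
theorem tm2 {φ : α → ℕ} (hφ : PB φ) {A : Type} (ea : A → List Bool) (f : A → ℕ) (d : A → α)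
    (h1 : ∀ x, ea x = enc (d x)) (h2 : ∀ x, f x = φ (d x)) :
    Nonempty (Turing.TM2ComputableInPolyTime ea Nat.bits f) :=
  PF.tm2 hφ ea Nat.bits f d h1 fun x => by rw [h2]; rfl

end PB

end

example : PF (fun p : ℕ × List Bool =>
    bble ((3 ^ p.1 + bv p.2) / 7 ^ (p.1 * p.1)) (2 ^ Nat.size (5 ^ p.1 - p.1))) := by
  fun_prop

example : PF (fun p : ℕ × ℕ => (List.range p.1).filter fun l =>
    bble ((9 ^ l + 1) ^ p.2) (2 ^ p.1 * (9 ^ l - 1) ^ p.2)) := by
  fun_prop

end Pool.Agent.Shared.PolyTime
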