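import Mathlib
import Pool.Agent.Shared.PolyTime.Enc

/-!
Adjacency-matrix encoding of graphs on `Fin n`.
-/

set_option autoImplicit false

namespace Pool.Agent.Shared.PolyTime

open Classical in
/-- The adjacency matrix of a graph on `Fin n`, as a list of rows. -/
noncomputable def adjMatrix {n : ℕ} (G : SimpleGraph (Fin n)) : List (List Bool) :=
  (List.finRange n).map fun i => (List.finRange n).map fun j => decide (G.Adj i j)

/-- The adjacency matrix as a bit string. -/
noncomputable def encGraph {n : ℕ} (G : SimpleGraph (Fin n)) : List Bool :=
  encList (encList fun b => [b]) (adjMatrix G)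

end Pool.Agent.Shared.PolyTime
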