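import Mathlib
import Pool.Agent.Shared.PolyTime.Typed
import Pool.Agent.Shared.PolyTime.GraphEnc

/-!
Lemmas on adjacency matrices.
-/

set_option autoImplicit false

namespace Pool.Agent.Shared.PolyTime

theorem encGraph_eq {n : ℕ} (G : SimpleGraph (Fin n)) : encGraph G = Enc.enc (adjMatrix G) := rfl

/-- Matrix lookup. -/
def entry (M : List (List Bool)) (i j : ℕ) : Bool := (M.getD i []).getD j false

@[fun_prop] theorem PF.entry {α : Type} [Enc α] {M : α → List (List Bool)} {i j : α → ℕ}
    (hM : PF M) (hi : PF i) (hj : PF j) : PF (fun a => entry (M a) (i a) (j a)) := by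
  unfold PolyTime.entry
  fun_prop

theorem entry_adjMatrix {n : ℕ} (G : SimpleGraph (Fin n)) (i j : ℕ) :
    entry (adjMatrix G) i j = true ↔ ∃ (hi : i < n) (hj : j < n), G.Adj ⟨i, hi⟩ ⟨j, hj⟩ := by
  unfold entry adjMatrix
  by_cases hi : i < n
  · by_cases hj : j < n
    · simp [List.getD_eq_getElem?_getD, hi, hj]
    · simp [List.getD_eq_getElem?_getD, hi, hj]
  · simp [List.getD_eq_getElem?_getD, hi]

theorem map_finRange {β : Type} (n : ℕ) (f : ℕ → β) :
    (List.finRange n).map (fun i => f i.val) = (List.range n).map f := by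
  rw [← List.map_coe_finRange_eq_range, List.map_map]
  rfl

/-- The adjacency matrix of a graph whose adjacency is given by a Boolean function of indices. -/
theorem adjMatrix_eq {n : ℕ} (G : SimpleGraph (Fin n)) (A : ℕ → ℕ → Bool)
    (h : ∀ i j : Fin n, G.Adj i j ↔ A i j = true) :
    adjMatrix G = (List.range n).map fun i => (List.range n).map fun j => A i j := by
  classical
  unfold adjMatrix
  rw [← map_finRange]
  refine List.map_congr_left fun i _ => ?_
  rw [← map_finRange]
  refine List.map_congr_left fun j _ => ?_
  rw [Bool.eq_iff_iff]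
  simpa using h i j

/-- Example: complementing an adjacency matrix is polynomial-time. -/
example : PF (fun x : ℕ × List (List Bool) =>
    (List.range x.1).map fun i => (List.range x.1).map fun j =>
      !(i == j) && !(entry x.2 i j) && Nat.ble (i / 2 % x.1) (x.1 ^ 2)) := by
  fun_prop

end Pool.Agent.Shared.PolyTime
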